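import Pool.Agent.N28.BM.Deep

/-!
# Averages over cubes of Hodge types
-/

open Finset

namespace Pool.Agent.N28.BM

section Avg

variable {S : Type} [Fintype S] [DecidableEq S] {n : ℕ}

/-- The element with entries `a` at the embedding `σ` and zero at the other embeddings. -/
def cube {E : ℕ} (σ : S) (a : Fin (n + 1) → Fin E) : Wt S (n + 1) :=
  Pi.single σ (fun i => ((a i : ℕ) : ℤ))

/-- A product of geometric sums. -/
noncomputable def geo (n E : ℕ) : MvPolynomial (Fin (n + 1)) ℤ :=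
  ∏ i, ∑ j : Fin E, MvPolynomial.X i ^ (j : ℕ)

lemma geo_sym (E : ℕ) : (geo n E).IsSymmetric := by
  intro e
  unfold geo
  rw [map_prod]
  simp only [map_sum, map_pow, MvPolynomial.rename_X]
  exact Equiv.prod_comp e
    (fun i => ∑ j : Fin E, (MvPolynomial.X i : MvPolynomial (Fin (n + 1)) ℤ) ^ (j : ℕ))

omit [Fintype S] in
lemma th_geo (σ : S) (E : ℕ) : (th σ 1 (geo n E) : P S (n + 1)) =
    ∑ a : Fin (n + 1) → Fin E, AddMonoidAlgebra.single (cube σ a) 1 := by
  unfold geo
  rw [map_prod]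
  simp only [map_sum, map_pow, th, MvPolynomial.aeval_X]
  rw [Finset.prod_univ_sum, Fintype.piFinset_univ]
  refine Finset.sum_congr rfl fun a _ => ?_
  simp only [AddMonoidAlgebra.single_pow, one_pow]
  have key : ∀ I : Finset (Fin (n + 1)), ∏ i ∈ I,
      (AddMonoidAlgebra.single ((a i : ℕ) • 1 • un σ i) (1 : ℤ) : P S (n + 1)) =
      AddMonoidAlgebra.single (∑ i ∈ I, (a i : ℕ) • 1 • un σ i) 1 := by
    intro I
    induction I using Finset.induction_on with
    | empty => simp [AddMonoidAlgebra.one_def]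
    | insert i I hi ih => rw [Finset.prod_insert hi, Finset.sum_insert hi, ih,
        AddMonoidAlgebra.single_mul_single, one_mul]
  rw [key]
  congr 1
  funext τ j
  simp only [Finset.sum_apply, Pi.smul_apply, un, cube, one_smul]
  by_cases hτ : τ = σ
  · subst hτ
    simp [Pi.single_apply]
  · simp [Pi.single_eq_of_ne hτ]

omit [Fintype S] in
lemma LF_cube {M : Type*} [AddCommGroup M] (Z : Wt S (n + 1) → M) (h : Wt S (n + 1)) (σ : S)
    (E : ℕ) : LF Z (AddMonoidAlgebra.single h 1 * th σ 1 (geo n E)) =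
      ∑ a : Fin (n + 1) → Fin E, Z (h + cube σ a) := by
  rw [th_geo, Finset.mul_sum, map_sum]
  refine Finset.sum_congr rfl fun a _ => ?_
  rw [AddMonoidAlgebra.single_mul_single, one_mul, LF_single, one_smul]

/-- The dimension of `W_h`: the sum of the coefficients of the Weyl character. -/
noncomputable def dimW (s : Wt S (n + 1) → P S (n + 1)) (h : Wt S (n + 1)) : ℤ :=
  LF (fun _ => (1 : ℤ)) (s h)

lemma ev_dim (s : Wt S (n + 1) → P S (n + 1)) (h : Wt S (n + 1)) :
    evx (fun _ _ => 1) (s h) = ((dimW s h : ℤ) : ℂ) := by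
  have key : ∀ c : P S (n + 1), evx (fun _ _ => 1) c = ((LF (fun _ => (1 : ℤ)) c : ℤ) : ℂ) := by
    intro c
    induction c using AddMonoidAlgebra.induction_linear with
    | zero => simp
    | add x y hx hy => rw [map_add, map_add, hx, hy]; push_cast; rfl
    | single h m => simp [evx, LF_single]
  exact key _

lemma nf_dom (h : Wt S (n + 1)) (hh : Dom h) : nf h = AddMonoidAlgebra.single h 1 := by
  unfold nf
  have hex : ∃ π : S → Equiv.Perm (Fin (n + 1)), Dom (actE π h) := ⟨1, hh⟩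
  rw [dif_pos hex]
  have h1 : hex.choose = 1 := by
    have h2 := hex.choose_spec
    set π := hex.choose
    funext σ
    have h3 : StrictMono (π σ) := by
      intro i j hij
      have h4 : h σ (π σ j) < h σ (π σ i) := h2 σ hij
      by_contra hc
      push Not at hc
      have := (hh σ).antitone hc
      linarith
    have h5 := Subsingleton.elim (h3.orderIsoOfSurjective _ (π σ).surjective)
      (OrderIso.refl (Fin (n + 1)))
    ext i
    exact congrArg Fin.val (DFunLike.congr_fun h5 i)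
  rw [h1]
  have h2 : actE (1 : S → Equiv.Perm (Fin (n + 1))) h = h := rfl
  rw [h2]
  simp [sgnW]

/-- All differences of consecutive weights at the embedding `σ` are at least `E`. -/
def Gap (E : ℕ) (σ : S) (h : Wt S (n + 1)) : Prop :=
  ∀ i : Fin n, (E : ℤ) ≤ h σ i.castSucc - h σ i.succ

omit [Fintype S] in
lemma dom_cube (h : Wt S (n + 1)) (hh : Dom h) (σ : S) (E : ℕ) (hg : Gap E σ h)
    (a : Fin (n + 1) → Fin E) : Dom (h + cube σ a) := by
  intro τ
  by_cases hτ : τ = σ
  · subst hτ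
    rw [Fin.strictAnti_iff_succ_lt]
    intro i
    have h1 := hg i
    have h2 := (a i.succ).2
    simp only [Pi.add_apply, cube, Pi.single_eq_same]
    omega
  · have : (h + cube σ a) τ = h τ := by
      funext i
      simp [cube, Pi.single_eq_of_ne hτ]
    rw [this]
    exact hh τ

end Avg

section Thm

variable {k F : Type} [Field k] [Fintype k] [Field F] [IsAlgClosed F] (ι : k →+* F) {p f : ℕ}
  [hp : Fact p.Prime] [CharP F p] (hk : Fintype.card k = p ^ f) (hf : f ≠ 0)
  {S : Type} [Fintype S] [DecidableEq S] {n : ℕ} (κ : S → ZMod f)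
  (hκ : Function.Surjective κ) (t : Fˣ →* ℂˣ) (ht : Function.Injective t)
  (s : Wt S (n + 1) → P S (n + 1)) (hs : IsWeyl s)
  (D : SerreWeights k F (n + 1) t)

include ht hs in
omit [IsAlgClosed F] in
lemma ev_cube (g : GL (Fin (n + 1)) k) (x : Fin (n + 1) → Fˣ) (hx : IsEigen ι g x) (σ : S)
    (h : Wt S (n + 1)) : evx (pnt κ p t x) (LF s (AddMonoidAlgebra.single h 1 *
      th σ 1 (geo n (ordGL k (n + 1))) - dimW s h • (AddMonoidAlgebra.single (fun _ => rho n) 1 *
      th σ 1 (geo n (ordGL k (n + 1)))))) = 0 := by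
  rw [map_sub, map_zsmul, LF_mul s hs h _ (fun π => dc_th π σ 1 _ (geo_sym _)),
    LF_mul s hs _ _ (fun π => dc_th π σ 1 _ (geo_sym _)), s_rho s hs, one_mul, map_sub, map_zsmul,
    map_mul, evx_th]
  by_cases h1 : ∀ i, x i = 1
  · have h2 : pnt κ p t x = fun _ _ => 1 := by
      funext σ i
      simp [pnt, h1 i]
    rw [h2, ev_dim, zsmul_eq_mul, sub_self]
  · push Not at h1
    obtain ⟨i, hi⟩ := h1
    have h2 : MvPolynomial.aeval (fun i => ((pnt κ p t x σ i : ℂˣ) : ℂ) ^ 1)
        (geo n (ordGL k (n + 1))) = 0 := by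
      unfold geo
      rw [map_prod]
      apply Finset.prod_eq_zero (Finset.mem_univ i)
      simp only [map_sum, map_pow, MvPolynomial.aeval_X, pow_one]
      set y : ℂ := ((pnt κ p t x σ i : ℂˣ) : ℂ) with hy
      have hy1 : y ≠ 1 := by
        intro hc
        have h3 : pnt κ p t x σ i = 1 := Units.ext hc
        unfold pnt at h3
        rw [← map_pow] at h3
        have h4 : (x i) ^ (p ^ (κ σ).val) = 1 := ht (by rw [h3, map_one])
        apply hi
        apply Units.ext
        have h5 : ((x i : Fˣ) : F) ^ (p ^ (κ σ).val) = 1 := by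
          rw [← Units.val_pow_eq_pow_val, h4, Units.val_one]
        have h6 : (((x i : Fˣ) : F) - 1) ^ (p ^ (κ σ).val) = 0 := by
          rw [sub_pow_char_pow, h5, one_pow, sub_self]
        rw [Units.val_one]
        exact sub_eq_zero.mp (pow_eq_zero_iff (pow_ne_zero _ hp.out.ne_zero) |>.mp h6)
      have hyE : y ^ (ordGL k (n + 1)) = 1 := by
        rw [hy, ← Units.val_pow_eq_pow_val]
        unfold pnt
        rw [← pow_mul, mul_comm, pow_mul, ← map_pow, eigen_pow ι g x hx i, map_one, one_pow,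
          Units.val_one]
      rw [Fin.sum_univ_eq_sum_range (fun j => y ^ j)]
      have h3 := geom_sum_mul y (ordGL k (n + 1))
      rw [hyE, sub_self] at h3
      exact (mul_eq_zero.mp h3).resolve_right (sub_ne_zero.mpr hy1)
    rw [h2]
    simp

include ι hk hf hκ ht hs in
/-- **The sum of the values of a solution over a cube is proportional to the dimension.** -/
theorem average {M : Type*} [AddCommGroup M] (Z : Wt S (n + 1) → M) (hZ : Alt Z)
    (hE : Equations κ p Z) (σ : S) (h : Wt S (n + 1)) :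
    ∑ a : Fin (n + 1) → Fin (ordGL k (n + 1)), Z (h + cube σ a) =
      dimW s h • ∑ a : Fin (n + 1) → Fin (ordGL k (n + 1)), Z ((fun _ => rho n) + cube σ a) := by
  have h1 := core ι hk hf κ hκ t ht s hs Z hZ hE _
    (fun g x hx => ev_cube ι κ t ht s hs g x hx σ h)
  rw [map_sub, map_zsmul, LF_cube, LF_cube, sub_eq_zero] at h1
  exact h1

include ι ht hs in
lemma average_mult (θ : GL (Fin (n + 1)) k → ℂ) (mult : Wt S (n + 1) → D.W → ℕ)
    (hmult : IsMult ι (p := p) κ t s D θ mult) (σ : S) (h : Wt S (n + 1)) (hh : Dom h)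
    (hg : Gap (ordGL k (n + 1)) σ h) (w : D.W) :
    ∑ a : Fin (n + 1) → Fin (ordGL k (n + 1)), (mult (h + cube σ a) w : ℤ) =
      dimW s h * LF (fun h => (mult h w : ℤ)) (NF (AddMonoidAlgebra.single (fun _ => rho n) 1 *
        th σ 1 (geo n (ordGL k (n + 1))))) := by
  set c : P S (n + 1) := AddMonoidAlgebra.single h 1 *
      th σ 1 (geo n (ordGL k (n + 1))) - dimW s h • (AddMonoidAlgebra.single (fun _ => rho n) 1 *
      th σ 1 (geo n (ordGL k (n + 1)))) with hc
  have h1 := mult_zero ι κ t s D θ mult hmult (NF c) (NF_dom c) (fun g x hx => by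
    rw [LF_NF s (weyl_alt s hs)]
    exact ev_cube ι κ t ht s hs g x hx σ h) w
  rw [hc, map_sub, map_zsmul, map_sub, map_zsmul, sub_eq_zero, smul_eq_mul] at h1
  rw [← h1]
  have h2 : NF (AddMonoidAlgebra.single h 1 * th σ 1 (geo n (ordGL k (n + 1)))) =
      ∑ a : Fin (n + 1) → Fin (ordGL k (n + 1)), nf (h + cube σ a) := LF_cube nf h σ _
  rw [h2, map_sum]
  refine Finset.sum_congr rfl fun a _ => ?_
  rw [nf_dom _ (dom_cube h hh σ _ hg a), LF_single, one_smul]

include hk hf hκ ht hs in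
/-- **Given the inequality and the difference equations, one cube suffices.** -/
theorem one_cube {T : Type*} (θ : T → GL (Fin (n + 1)) k → ℂ)
    (mult : T → Wt S (n + 1) → D.W → ℕ)
    (hmult : ∀ τ, IsMult ι (p := p) κ t s D (θ τ) (mult τ))
    (e : T → Wt S (n + 1) → ℤ) (he : ∀ τ, Alt (e τ)) (σ : S) (μ : D.W → ℕ)
    (hle : ∀ τ h, Dom h → ∑ w, (mult τ h w : ℤ) * μ w ≤ e τ h)
    (hE : ∀ τ, DomEquations κ p (e τ))
    (hone : ∀ τ, ∃ h, Dom h ∧ Gap (ordGL k (n + 1)) σ h ∧
      ∑ a : Fin (n + 1) → Fin (ordGL k (n + 1)),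
        (e τ (h + cube σ a) - ∑ w, (mult τ (h + cube σ a) w : ℤ) * μ w) < dimW s h) :
    ∀ τ h, Dom h → e τ h = ∑ w, (mult τ h w : ℤ) * μ w := by
  have hord : 0 < ordGL k (n + 1) := Nat.card_pos
  -- the constant
  have hC : ∀ τ, ∃ C : ℤ, ∀ h, Dom h → Gap (ordGL k (n + 1)) σ h →
      ∑ a : Fin (n + 1) → Fin (ordGL k (n + 1)),
        (e τ (h + cube σ a) - ∑ w, (mult τ (h + cube σ a) w : ℤ) * μ w) = dimW s h * C := by
    intro τ
    refine ⟨∑ a : Fin (n + 1) → Fin (ordGL k (n + 1)), e τ ((fun _ => rho n) + cube σ a) -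
      ∑ w, LF (fun h => (mult τ h w : ℤ)) (NF (AddMonoidAlgebra.single (fun _ => rho n) 1 *
        th σ 1 (geo n (ordGL k (n + 1))))) * (μ w : ℤ), fun h hh hg => ?_⟩
    rw [Finset.sum_sub_distrib, average ι hk hf κ hκ t ht s hs (e τ) (he τ)
      (equations_of_dom κ p (e τ) (he τ) (hE τ)) σ h, smul_eq_mul, mul_sub]
    congr 1
    rw [Finset.sum_comm, Finset.mul_sum]
    refine Finset.sum_congr rfl fun w _ => ?_
    rw [← Finset.sum_mul, average_mult ι κ t ht s hs D (θ τ) (mult τ) (hmult τ) σ h hh hg w]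
    ring
  have hgap : ∀ τ h, Dom h → Gap (ordGL k (n + 1)) σ h →
      e τ h = ∑ w, (mult τ h w : ℤ) * μ w := by
    intro τ h hh hg
    obtain ⟨C, hC⟩ := hC τ
    obtain ⟨h₀, hd₀, hg₀, hlt⟩ := hone τ
    have hnn : ∀ h, Dom h → Gap (ordGL k (n + 1)) σ h →
        ∀ a ∈ (univ : Finset (Fin (n + 1) → Fin (ordGL k (n + 1)))),
        0 ≤ (e τ (h + cube σ a) - ∑ w, (mult τ (h + cube σ a) w : ℤ) * μ w) :=
      fun h hh hg a _ => sub_nonneg.mpr (hle τ _ (dom_cube h hh σ _ hg a))
    have h1 := Finset.sum_nonneg (hnn h₀ hd₀ hg₀)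
    rw [hC h₀ hd₀ hg₀] at h1 hlt
    have h2 : 0 < dimW s h₀ := lt_of_le_of_lt h1 hlt
    have h3 : C = 0 := by
      have h4 : 0 ≤ C := by
        by_contra hc
        push Not at hc
        nlinarith
      have h5 : C < 1 := by
        by_contra hc
        push Not at hc
        nlinarith
      omega
    have h4 := hC h hh hg
    rw [h3, mul_zero] at h4
    have h5 := (Finset.sum_eq_zero_iff_of_nonneg (hnn h hh hg)).1 h4
      (fun _ => ⟨0, hord⟩) (Finset.mem_univ _)
    have h6 : h + cube σ (fun _ => (⟨0, hord⟩ : Fin (ordGL k (n + 1)))) = h := by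
      funext τ i
      simp only [Pi.add_apply, cube]
      by_cases hτ : τ = σ
      · subst hτ; simp
      · simp [Pi.single_eq_of_ne hτ]
    rw [h6] at h5
    exact sub_eq_zero.mp h5
  have key : ∀ τ h, (∑ w, (mult τ h w : ℤ) * μ w) = ∑ w, mult τ h w • ((μ w : ℕ) : ℤ) := by
    intro τ h
    refine Finset.sum_congr rfl fun w _ => ?_
    rw [nsmul_eq_mul]
  intro τ h hh
  have h1 := (deep ι hk hf κ hκ t ht s hs D θ mult hmult e he (fun w => ((μ w : ℕ) : ℤ))
    (ordGL k (n + 1) : ℤ)).2 ⟨hE, fun τ h hh hd => by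
      rw [hgap τ h hh (fun i => (hd σ).1 i), key]⟩ τ h hh
  rw [h1, key]

end Thm

end Pool.Agent.N28.BM
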