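import Pool.Agent.N28.BM.Span

/-!
# Reduction to the box
-/

open Finset

namespace Pool.Agent.N28.BM

variable {S : Type} [DecidableEq S] {n : ℕ} {M : Type*} [AddCommGroup M]

lemma inc_update (X : Wt S (n + 1)) (σ : S) (v : Fin (n + 1) → ℤ) (m : ℤ)
    (J : Finset (Fin (n + 1))) :
    inc (Function.update X σ v) σ m J = Function.update X σ (ad v m J) := by
  unfold inc ad
  rw [Function.update_idem, Function.update_self]

lemma inc_update_ne (X : Wt S (n + 1)) (σ τ : S) (hne : σ ≠ τ) (v : Fin (n + 1) → ℤ) (m : ℤ)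
    (J : Finset (Fin (n + 1))) :
    inc (Function.update X τ v) σ m J = Function.update (inc X σ m J) τ v := by
  unfold inc
  rw [Function.update_of_ne hne, Function.update_comm hne]

lemma shift_full (Y : Wt S (n + 1) → M) (X : Wt S (n + 1)) (σ : S) (m : ℤ) :
    shift Y X σ m (n + 1) = Y (inc X σ m univ) := by
  have : (univ : Finset (Fin (n + 1))).powersetCard (n + 1) = {univ} := by
    have := Finset.powersetCard_self (univ : Finset (Fin (n + 1)))
    simpa using this
  unfold shift
  rw [this, Finset.sum_singleton]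

lemma ad_univ (v : Fin (n + 1) → ℤ) (m : ℤ) : ad v m univ = fun i => v i + m := by
  funext i; simp [ad]

/-- the top term of a relation -/
lemma top_mem (Y : Wt S (n + 1) → M) (X : Wt S (n + 1)) (σ : S) (m : ℤ) (r : ℕ) (hr : r ≤ n + 1)
    (T : AddSubgroup M) (h1 : shift Y X σ m r ∈ T)
    (h2 : ∀ J : Finset (Fin (n + 1)), J.card = r → J ≠ top n r → Y (inc X σ m J) ∈ T) :
    Y (inc X σ m (top n r)) ∈ T := by
  have hmem : top n r ∈ (univ : Finset (Fin (n + 1))).powersetCard r := by
    rw [Finset.mem_powersetCard]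
    exact ⟨Finset.subset_univ _, card_top n r hr⟩
  unfold shift at h1
  rw [← Finset.add_sum_erase _ _ hmem] at h1
  have h3 : ∑ J ∈ ((univ : Finset (Fin (n + 1))).powersetCard r).erase (top n r),
      Y (inc X σ m J) ∈ T := by
    refine sum_mem fun J hJ => ?_
    rw [Finset.mem_erase, Finset.mem_powersetCard] at hJ
    exact h2 J hJ.2.2 hJ.1
  have := T.sub_mem h1 h3
  simpa using this

lemma alt_perm_mem (Y : Wt S (n + 1) → M) (hY : Alt Y) (X : Wt S (n + 1)) (σ : S)
    (v : Fin (n + 1) → ℤ) (π : Equiv.Perm (Fin (n + 1))) (T : AddSubgroup M)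
    (h : Y (Function.update X σ (v ∘ π)) ∈ T) : Y (Function.update X σ v) ∈ T := by
  have h1 := hY.perm (Function.update X σ v) σ π
  unfold pw at h1
  rw [Function.update_idem, Function.update_self] at h1
  rcases Int.units_eq_one_or (Equiv.Perm.sign π) with hs | hs
  · rw [hs] at h1
    simp only [Units.val_one, one_smul] at h1
    rw [← h1]; exact h
  · rw [hs] at h1
    simp only [Units.val_neg, Units.val_one, neg_smul, one_smul] at h1
    have := T.neg_mem h
    rw [h1, neg_neg] at this
    exact this

lemma alt_zero_mem (Y : Wt S (n + 1) → M) (hY : Alt Y) (X : Wt S (n + 1)) (σ : S)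
    (v : Fin (n + 1) → ℤ) (hv : ¬ Function.Injective v) (T : AddSubgroup M) :
    Y (Function.update X σ v) ∈ T := by
  rw [Function.Injective] at hv
  push Not at hv
  obtain ⟨i, j, h1, h2⟩ := hv
  rw [hY.zero _ σ i j h2 (by rw [Function.update_self]; exact h1)]
  exact T.zero_mem

/-- Reduction at an embedding `σ ≠ σ₀`. -/
lemma redA (Y : Wt S (n + 1) → M) (hY : Alt Y) (σ σ₀ : S) (hne : σ ≠ σ₀) (m : ℕ)
    (hrel : ∀ r h, 1 ≤ r → r ≤ n + 1 → shift Y h σ 1 r = shift Y h σ₀ m r) (h : Wt S (n + 1))
    (T : AddSubgroup M)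
    (hT : ∀ w, Y (Function.update (Function.update h σ (rho n)) σ₀ w) ∈ T) :
    ∀ v w, Y (Function.update (Function.update h σ v) σ₀ w) ∈ T := by
  refine ind 1 1 le_rfl le_rfl
    (fun v => ∀ w, Y (Function.update (Function.update h σ v) σ₀ w) ∈ T) ?_ ?_ ?_ ?_ ?_
  · intro v hv w
    rw [Function.update_comm hne]
    exact alt_zero_mem Y hY _ σ v hv T
  · intro v π hv w
    rw [Function.update_comm hne]
    apply alt_perm_mem Y hY _ σ v π T
    rw [Function.update_comm hne.symm]
    exact hv w
  · intro v
    have key : ∀ w, Y (Function.update (Function.update h σ (fun i => v i + 1)) σ₀ w) =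
        Y (Function.update (Function.update h σ v) σ₀ (fun i => w i + m)) := by
      intro w
      have := hrel (n + 1) (Function.update (Function.update h σ v) σ₀ w) (by omega) le_rfl
      rw [shift_full, shift_full, inc_update_ne _ _ _ hne, inc_update, inc_update, ad_univ,
        ad_univ] at this
      exact this
    constructor
    · intro hv w
      have := hv (fun i => w i + m)
      rw [← key] at this
      simpa using this
    · intro hv w
      have := hv (fun i => w i - m)
      simp only [Nat.cast_one] at this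
      rw [key] at this
      simpa using this
  · intro v hv hnn r h1 h2 hJ hlow w
    have h3 := hrel r (Function.update (Function.update h σ v) σ₀ w) h1 (by omega)
    have h4 : shift Y (Function.update (Function.update h σ v) σ₀ w) σ 1 r ∈ T := by
      rw [h3]
      refine sum_mem fun J hJ => ?_
      rw [inc_update]
      apply hlow v hnn
      have : (0 : ℤ) < r := by exact_mod_cast h1
      simp
      omega
    have := top_mem Y _ σ 1 r (by omega) T h4 ?_
    · rw [inc_update_ne _ _ _ hne, inc_update] at this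
      simpa using this
    · intro J hJ' hne'
      rw [inc_update_ne _ _ _ hne, inc_update]
      have := hJ J hJ' hne' w
      simpa using this
  · intro v hv hgap hl0 hl1
    have : v = rho n := by
      funext i
      induction i using Fin.reverseInduction with
      | last => simp [rho]; simp at hl1; omega
      | cast i ih =>
        have h1 := hgap i
        have h2 : v i.succ < v i.castSucc := hv (Fin.castSucc_lt_succ)
        rw [ih] at h1 h2
        simp only [rho, Fin.val_succ, Fin.val_castSucc] at *
        push_cast at *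
        omega
    subst this
    exact hT

/-- The tuples in the box: differences between `1` and `q`, last entry between `0` and `q - 2`. -/
def bx {n q : ℕ} (c : Fin n → Fin q) (e : Fin (q - 1)) : Fin (n + 1) → ℤ :=
  fun i => (e.val : ℤ) + ∑ j : Fin n, if i ≤ j.castSucc then (((c j).val : ℤ) + 1) else 0

lemma bx_last {q : ℕ} (c : Fin n → Fin q) (e : Fin (q - 1)) : bx c e (Fin.last n) = e.val := by
  unfold bx
  rw [Finset.sum_eq_zero, add_zero]
  intro j _
  rw [if_neg]
  exact not_le.mpr (Fin.castSucc_lt_last j)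

lemma bx_cast {q : ℕ} (c : Fin n → Fin q) (e : Fin (q - 1)) (i : Fin n) :
    bx c e i.castSucc = bx c e i.succ + ((c i).val + 1) := by
  unfold bx
  have : ∀ j : Fin n, (if i.castSucc ≤ j.castSucc then (((c j).val : ℤ) + 1) else 0) =
      (if i.succ ≤ j.castSucc then (((c j).val : ℤ) + 1) else 0) +
      (if j = i then (((c j).val : ℤ) + 1) else 0) := by
    intro j
    by_cases h : j = i
    · subst h
      simp
    · rw [if_neg h, add_zero]
      congr 1
      rw [eq_iff_iff, Fin.castSucc_le_castSucc_iff, Fin.succ_le_castSucc_iff]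
      constructor
      · intro h1; exact lt_of_le_of_ne h1 (Ne.symm h)
      · intro h1; exact h1.le
  rw [Finset.sum_congr rfl fun j _ => this j, Finset.sum_add_distrib, Finset.sum_ite_eq']
  simp
  ring

lemma eq_bx {q : ℕ} (hq : 2 ≤ q) (v : Fin (n + 1) → ℤ) (hv : StrictAnti v)
    (hgap : ∀ i : Fin n, v i.castSucc - v i.succ ≤ q) (h0 : 0 ≤ v (Fin.last n))
    (h1 : v (Fin.last n) < ((q - 1 : ℕ) : ℤ)) :
    ∃ (c : Fin n → Fin q) (e : Fin (q - 1)), v = bx c e := by
  have hpos : ∀ i : Fin n, v i.succ < v i.castSucc := fun i => hv Fin.castSucc_lt_succ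
  refine ⟨fun i => ⟨(v i.castSucc - v i.succ - 1).toNat, by
    have := hgap i; have := hpos i; omega⟩, ⟨(v (Fin.last n)).toNat, by omega⟩, ?_⟩
  funext i
  induction i using Fin.reverseInduction with
  | last => rw [bx_last]; simp [h0]
  | cast i ih =>
    rw [bx_cast, ← ih]
    have := hpos i
    simp only
    rw [Int.toNat_of_nonneg (by omega)]
    ring

/-- Reduction at the embedding `σ₀`. -/
lemma redB (Y : Wt S (n + 1) → M) (hY : Alt Y) (σ₀ : S) (q : ℕ) (hq : 2 ≤ q)
    (hrel : ∀ r h, 1 ≤ r → r ≤ n + 1 → shift Y h σ₀ q r = shift Y h σ₀ 1 r) (h : Wt S (n + 1))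
    (T : AddSubgroup M)
    (hT : ∀ (c : Fin n → Fin q) (e : Fin (q - 1)), Y (Function.update h σ₀ (bx c e)) ∈ T) :
    ∀ v, Y (Function.update h σ₀ v) ∈ T := by
  refine ind q (q - 1) (by omega) (by omega) (fun v => Y (Function.update h σ₀ v) ∈ T)
    ?_ ?_ ?_ ?_ ?_
  · intro v hv
    exact alt_zero_mem Y hY _ σ₀ v hv T
  · intro v π hv
    exact alt_perm_mem Y hY _ σ₀ v π T hv
  · intro v
    have key : Y (Function.update h σ₀ (fun i => v i + ((q - 1 : ℕ) : ℤ))) =
        Y (Function.update h σ₀ v) := by
      have := hrel (n + 1) (Function.update h σ₀ (fun i => v i - 1)) (by omega) le_rfl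
      rw [shift_full, shift_full, inc_update, inc_update, ad_univ, ad_univ] at this
      convert this using 3
      · funext i; push_cast [Nat.cast_sub (by omega : 1 ≤ q)]; ring
      · funext i; ring
    rw [key]
  · intro v hv hnn r h1 h2 hJ hlow
    have h3 := hrel r (Function.update h σ₀ v) h1 (by omega)
    have hq' : (2 : ℤ) ≤ q := by exact_mod_cast hq
    have hr' : (1 : ℤ) ≤ r := by exact_mod_cast h1
    have h4 : shift Y (Function.update h σ₀ v) σ₀ q r ∈ T := by
      rw [h3]
      refine sum_mem fun J hJ => ?_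
      rw [inc_update]
      rw [Finset.mem_powersetCard] at hJ
      apply hlow
      · intro i
        have := hnn i
        simp only [ad]
        split_ifs <;> omega
      · rw [sum_ad, hJ.2]
        nlinarith
    have := top_mem Y _ σ₀ q r (by omega) T h4 ?_
    · rw [inc_update] at this
      exact this
    · intro J hJ' hne'
      rw [inc_update]
      exact hJ J hJ' hne'
  · intro v hv hgap hl0 hl1
    obtain ⟨c, e, rfl⟩ := eq_bx hq v hv hgap hl0 hl1
    exact hT c e

/-- The weights in the box: trivial Hodge type at all embeddings except `σ₀`. -/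
def boxW {S : Type} [DecidableEq S] {n q : ℕ} (σ₀ : S) (b : (Fin n → Fin q) × Fin (q - 1)) :
    Wt S (n + 1) := Function.update (fun _ => rho n) σ₀ (bx b.1 b.2)

/-- **The values of `Y` are integral combinations of the values in the box.** -/
theorem mem_box [Fintype S] (Y : Wt S (n + 1) → M) (hY : Alt Y) (σ₀ : S) (q : ℕ) (hq : 2 ≤ q)
    (hrel : ∀ r h, 1 ≤ r → r ≤ n + 1 → shift Y h σ₀ q r = shift Y h σ₀ 1 r)
    (hrelσ : ∀ σ, σ ≠ σ₀ → ∃ m : ℕ, ∀ r h, 1 ≤ r → r ≤ n + 1 →
      shift Y h σ 1 r = shift Y h σ₀ m r)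
    (T : AddSubgroup M) (hT : ∀ b : (Fin n → Fin q) × Fin (q - 1), Y (boxW σ₀ b) ∈ T) :
    ∀ h, Y h ∈ T := by
  have main : ∀ A : Finset S, σ₀ ∉ A → ∀ h : Wt S (n + 1),
      (∀ σ, σ ∉ A → σ ≠ σ₀ → h σ = rho n) → Y h ∈ T := by
    intro A
    induction A using Finset.induction_on with
    | empty =>
      intro _ h hh
      have h1 : h = Function.update (fun _ => rho n) σ₀ (h σ₀) := by
        funext τ
        by_cases hτ : τ = σ₀
        · subst hτ; rw [Function.update_self]
        · rw [Function.update_of_ne hτ]; exact hh τ (by simp) hτ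
      rw [h1]
      exact redB Y hY σ₀ q hq hrel _ T (fun c e => hT (c, e)) _
    | insert σ A hσ ih =>
      intro hA h hh
      rw [Finset.mem_insert, not_or] at hA
      obtain ⟨m, hm⟩ := hrelσ σ (Ne.symm hA.1)
      have h1 := redA Y hY σ σ₀ (Ne.symm hA.1) m hm h T ?_ (h σ) (h σ₀)
      · rwa [Function.update_eq_self, Function.update_eq_self] at h1
      · intro w
        apply ih hA.2
        intro τ hτ hτ0
        rw [Function.update_of_ne hτ0]
        by_cases hτσ : τ = σ
        · subst hτσ; rw [Function.update_self]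
        · rw [Function.update_of_ne hτσ]
          exact hh τ (by rw [Finset.mem_insert, not_or]; exact ⟨hτσ, hτ⟩) hτ0
  intro h
  apply main (univ.erase σ₀) (by simp) h
  intro σ h1 h2
  simp [h2] at h1

end Pool.Agent.N28.BM
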