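import Pool.Agent.N28.BM.Thm

/-!
# Quasi-polynomials, and Hodge types far away from the walls
-/

open Finset

namespace Pool.Agent.N28.BM

section Poly

variable {S : Type} [Fintype S] [DecidableEq S] {n : ℕ}

lemma actE_mul {d : ℕ} (π π' : S → Equiv.Perm (Fin d)) (v : Wt S d) :
    actE π' (actE π v) = actE (π * π') v := rfl

/-- The polynomial whose roots are the conjugates of the monomial `v`. -/
noncomputable def orb {d : ℕ} (v : Wt S d) : Polynomial (P S d) :=
  ∏ π : S → Equiv.Perm (Fin d),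
    (Polynomial.X - Polynomial.C (AddMonoidAlgebra.single (actE π v) (1 : ℤ)))

lemma orb_inv {d : ℕ} (v : Wt S d) (π : S → Equiv.Perm (Fin d)) (j : ℕ) :
    dc π ((orb v).coeff j) = (orb v).coeff j := by
  have h1 : (orb v).map (dc π : P S d →+* P S d) = orb v := by
    unfold orb
    rw [Polynomial.map_prod, ← Equiv.prod_comp (Equiv.mulRight π)
      (fun π => (Polynomial.X - Polynomial.C (AddMonoidAlgebra.single (actE π v) (1 : ℤ)) :
        Polynomial (P S d)))]
    refine Finset.prod_congr rfl fun ω _ => ?_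
    rw [Polynomial.map_sub, Polynomial.map_X, Polynomial.map_C]
    have : (dc π : P S d →+* P S d) (AddMonoidAlgebra.single (actE ω v) (1 : ℤ)) =
        AddMonoidAlgebra.single (actE (ω * π) v) 1 := by
      rw [← actE_mul]
      exact dc_single _ _ _
    rw [this]
    rfl
  conv_rhs => rw [← h1]
  rw [Polynomial.coeff_map]
  rfl

lemma orb_natDegree {d : ℕ} (v : Wt S d) :
    (orb v).natDegree ≤ Fintype.card (S → Equiv.Perm (Fin d)) := by
  unfold orb
  refine (Polynomial.natDegree_prod_le _ _).trans ?_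
  refine (Finset.sum_le_sum (fun π _ => Polynomial.natDegree_X_sub_C_le _)).trans ?_
  simp

lemma orb_rel (s : Wt S (n + 1) → P S (n + 1)) (hs : IsWeyl s) (h v : Wt S (n + 1)) :
    ∑ j ∈ range (Fintype.card (S → Equiv.Perm (Fin (n + 1))) + 1),
      s (h + j • v) * (orb v).coeff j = 0 := by
  have h1 : (orb v).eval (AddMonoidAlgebra.single v (1 : ℤ)) = 0 := by
    unfold orb
    rw [Polynomial.eval_prod]
    refine Finset.prod_eq_zero (Finset.mem_univ 1) ?_
    have : actE (1 : S → Equiv.Perm (Fin (n + 1))) v = v := rfl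
    rw [this]
    simp
  rw [Polynomial.eval_eq_sum_range' (Nat.lt_succ_of_le (orb_natDegree v))] at h1
  have h2 := congrArg (fun a => LF s (AddMonoidAlgebra.single h 1 * a)) h1
  simp only [mul_zero, map_zero] at h2
  rw [Finset.mul_sum, map_sum] at h2
  rw [← h2]
  refine Finset.sum_congr rfl fun j _ => ?_
  rw [AddMonoidAlgebra.single_pow, one_pow]
  rw [mul_comm ((orb v).coeff j), ← mul_assoc, AddMonoidAlgebra.single_mul_single, one_mul,
    LF_mul s hs _ _ (fun π => orb_inv v π j)]

lemma orb_ev {d : ℕ} (v : Wt S d) (y : S → Fin d → ℂˣ)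
    (hy : ∀ π, evx y (AddMonoidAlgebra.single (actE π v) 1) = 1) (j : ℕ) :
    evx y ((orb v).coeff j) =
      (-1) ^ (Fintype.card (S → Equiv.Perm (Fin d)) - j) *
        ((Fintype.card (S → Equiv.Perm (Fin d))).choose j : ℂ) := by
  have h1 : (orb v).map ((evx y : P S d →ₐ[ℤ] ℂ) : P S d →+* ℂ) =
      (Polynomial.X + Polynomial.C (-1 : ℂ)) ^ (Fintype.card (S → Equiv.Perm (Fin d))) := by
    unfold orb
    rw [Polynomial.map_prod]
    have : ∀ π : S → Equiv.Perm (Fin d), (Polynomial.X - Polynomial.C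
        (AddMonoidAlgebra.single (actE π v) (1 : ℤ) : P S d)).map
        ((evx y : P S d →ₐ[ℤ] ℂ) : P S d →+* ℂ) = Polynomial.X + Polynomial.C (-1 : ℂ) := by
      intro π
      rw [Polynomial.map_sub, Polynomial.map_X, Polynomial.map_C]
      have h2 : ((evx y : P S d →ₐ[ℤ] ℂ) : P S d →+* ℂ)
          (AddMonoidAlgebra.single (actE π v) (1 : ℤ)) = 1 := hy π
      rw [h2]
      simp [sub_eq_add_neg]
    rw [Finset.prod_congr rfl fun π _ => this π, Finset.prod_const, Finset.card_univ]
  have h3 := congrArg (fun Q => Polynomial.coeff Q j) h1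
  simp only [Polynomial.coeff_map, Polynomial.coeff_X_add_C_pow] at h3
  exact h3

end Poly

section Thm

variable {k F : Type} [Field k] [Fintype k] [Field F] [IsAlgClosed F] (ι : k →+* F) {p f : ℕ}
  [hp : Fact p.Prime] [CharP F p] (hk : Fintype.card k = p ^ f) (hf : f ≠ 0)
  {S : Type} [Fintype S] [DecidableEq S] {n : ℕ} (κ : S → ZMod f)
  (hκ : Function.Surjective κ) (t : Fˣ →* ℂˣ) (ht : Function.Injective t)
  (s : Wt S (n + 1) → P S (n + 1)) (hs : IsWeyl s)
  (D : SerreWeights k F (n + 1) t)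

/-- the order of the group `GL_d(k)` -/
noncomputable def ordGL (k : Type) [Field k] (d : ℕ) : ℕ := Nat.card (GL (Fin d) k)

omit [IsAlgClosed F] in
/-- The eigenvalues of `g` are killed by the order of the group. -/
lemma eigen_pow {d : ℕ} (g : GL (Fin d) k) (x : Fin d → Fˣ) (hx : IsEigen ι g x) (i : Fin d) :
    x i ^ ordGL k d = 1 := by
  set E := ordGL k d with hE
  set A : Matrix (Fin d) (Fin d) F := (g : Matrix (Fin d) (Fin d) k).map ι with hA
  have hpow : A ^ E = 1 := by
    have h1 : g ^ E = 1 := pow_card_eq_one'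
    have h2 : ((g : Matrix (Fin d) (Fin d) k)) ^ E = 1 := by
      rw [← Units.val_pow_eq_pow_val, h1, Units.val_one]
    have h3 : A ^ E = ((g : Matrix (Fin d) (Fin d) k) ^ E).map ι := by
      rw [hA]
      exact (Matrix.map_pow _ ι E).symm
    rw [h3, h2]
    simp
  have hroot : A.charpoly.eval ((x i : Fˣ) : F) = 0 := by
    have : A.charpoly = (g : Matrix (Fin d) (Fin d) k).charpoly.map ι :=
      Matrix.charpoly_map _ ι
    rw [this, hx, Polynomial.eval_prod]
    exact Finset.prod_eq_zero (Finset.mem_univ i) (by simp)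
  rw [Matrix.eval_charpoly] at hroot
  have hcomm : Commute (Matrix.scalar (Fin d) ((x i : Fˣ) : F)) A :=
    Matrix.scalar_commute _ (fun r' => Commute.all _ _) _
  have hgeom := hcomm.mul_geom_sum₂ E
  have hdet := congrArg Matrix.det hgeom
  rw [Matrix.det_mul, hroot, zero_mul, hpow] at hdet
  have h4 : (Matrix.scalar (Fin d) ((x i : Fˣ) : F)) ^ E - 1 =
      Matrix.scalar (Fin d) (((x i : Fˣ) : F) ^ E - 1) := by
    rw [map_sub, map_pow, map_one]
  rw [h4] at hdet
  have h5 : (Matrix.scalar (Fin d) (((x i : Fˣ) : F) ^ E - 1)).det =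
      (((x i : Fˣ) : F) ^ E - 1) ^ d := by
    simp [Matrix.scalar_apply, Matrix.det_diagonal]
  rw [h5] at hdet
  have h6 : ((x i : Fˣ) : F) ^ E - 1 = 0 := by
    have : (((x i : Fˣ) : F) ^ E - 1) ^ d = 0 := hdet.symm
    exact (pow_eq_zero_iff (by have := i.2; omega)).mp this
  apply Units.ext
  rw [Units.val_pow_eq_pow_val, Units.val_one]
  exact sub_eq_zero.mp h6

omit [IsAlgClosed F] in
lemma ev_one {d : ℕ} (g : GL (Fin d) k) (x : Fin d → Fˣ) (hx : IsEigen ι g x) (v : Wt S d) :
    evx (pnt κ p t x) (AddMonoidAlgebra.single (ordGL k d • v) 1) = 1 := by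
  simp only [evx, AddMonoidAlgebra.lift_single, one_smul, MonoidHom.coe_mk, OneHom.coe_mk,
    toAdd_ofAdd]
  rw [Units.val_eq_one]
  refine Finset.prod_eq_one fun σ _ => Finset.prod_eq_one fun i _ => ?_
  have h1 : (pnt κ p t x σ i) ^ (ordGL k d) = 1 := by
    unfold pnt
    rw [← pow_mul, mul_comm, pow_mul, ← map_pow, eigen_pow ι g x hx i, map_one, one_pow]
  rw [Pi.smul_apply, Pi.smul_apply, nsmul_eq_mul, zpow_mul, zpow_natCast, h1, one_zpow]

/-- The coefficients of the recurrence. -/
def cf (m j : ℕ) : ℤ := (-1) ^ (m - j) * (m.choose j : ℤ)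

/-- The number of elements of the Weyl group. -/
def ordW (S : Type) [Fintype S] [DecidableEq S] (d : ℕ) : ℕ :=
  Fintype.card (S → Equiv.Perm (Fin d))

include hs in
omit [IsAlgClosed F] in
lemma ev_rec (g : GL (Fin (n + 1)) k) (x : Fin (n + 1) → Fˣ) (hx : IsEigen ι g x)
    (h v : Wt S (n + 1)) :
    ∑ j ∈ range (ordW S (n + 1) + 1), cf (ordW S (n + 1)) j •
      evx (pnt κ p t x) (s (h + (j * ordGL k (n + 1)) • v)) = 0 := by
  have h1 := congrArg (evx (pnt κ p t x)) (orb_rel s hs h (ordGL k (n + 1) • v))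
  rw [map_sum, map_zero] at h1
  rw [← h1]
  refine Finset.sum_congr rfl fun j _ => ?_
  rw [map_mul, orb_ev _ _ (fun π => by
    rw [map_nsmul]
    exact ev_one ι κ t g x hx _), smul_smul, zsmul_eq_mul, mul_comm]
  congr 1
  unfold cf ordW
  push_cast
  ring

include ι hk hf hκ ht hs in
/-- **Solutions of the difference equations are quasi-polynomials.** -/
theorem quasi_polynomial {M : Type*} [AddCommGroup M] (Z : Wt S (n + 1) → M) (hZ : Alt Z)
    (hE : Equations κ p Z) (h v : Wt S (n + 1)) :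
    ∑ j ∈ range (ordW S (n + 1) + 1), cf (ordW S (n + 1)) j •
      Z (h + (j * ordGL k (n + 1)) • v) = 0 := by
  set a : P S (n + 1) := ∑ j ∈ range (ordW S (n + 1) + 1),
    AddMonoidAlgebra.single (h + (j * ordGL k (n + 1)) • v) (cf (ordW S (n + 1)) j) with ha
  have hev : ∀ (g : GL (Fin (n + 1)) k) (x : Fin (n + 1) → Fˣ), IsEigen ι g x →
      evx (pnt κ p t x) (LF s a) = 0 := by
    intro g x hx
    rw [ha, map_sum, map_sum]
    simp only [LF_single, map_zsmul]
    exact ev_rec ι κ t s hs g x hx h v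
  have := core ι hk hf κ hκ t ht s hs Z hZ hE a hev
  rw [ha, map_sum] at this
  simpa only [LF_single] using this

/-- Hodge types far away from the walls: all differences of consecutive weights and all weights are
at least `N`. -/
def Deep (N : ℤ) (h : Wt S (n + 1)) : Prop :=
  ∀ σ, (∀ i : Fin n, N ≤ h σ i.castSucc - h σ i.succ) ∧ N ≤ h σ (Fin.last n)

include hk hf hκ ht hs in
/-- **Hodge types far away from the walls suffice.** -/
theorem deep {M : Type*} [AddCommGroup M] {T : Type*} (θ : T → GL (Fin (n + 1)) k → ℂ)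
    (mult : T → Wt S (n + 1) → D.W → ℕ)
    (hmult : ∀ τ, IsMult ι (p := p) κ t s D (θ τ) (mult τ))
    (Z : T → Wt S (n + 1) → M) (hZ : ∀ τ, Alt (Z τ)) (z : D.W → M) (N : ℤ) :
    (∀ τ h, Dom h → Z τ h = ∑ w, mult τ h w • z w) ↔
      (∀ τ, DomEquations κ p (Z τ)) ∧
      ∀ τ h, Dom h → Deep N h → Z τ h = ∑ w, mult τ h w • z w := by
  constructor
  · intro hz
    refine ⟨fun τ h hh σ σ' hσ r h1 h2 => ?_, fun τ h hh _ => hz τ h hh⟩
    exact equations_of_bm ι hk hf κ t s hs D _ (mult τ) (hmult τ) (Z τ) (hZ τ) z (hz τ)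
      σ σ' hσ r h1 h2 h
  · rintro ⟨hE, hdeep⟩ τ h hh
    have hE' := equations_of_dom κ p (Z τ) (hZ τ) (hE τ)
    set c : ℕ := (|N| + ∑ σ, |h σ (Fin.last n)|).toNat with hc
    have hc0 : (0 : ℤ) ≤ |N| + ∑ σ, |h σ (Fin.last n)| :=
      add_nonneg (abs_nonneg _) (Finset.sum_nonneg fun σ _ => abs_nonneg _)
    have hc1 : (c : ℤ) = |N| + ∑ σ, |h σ (Fin.last n)| := by rw [hc, Int.toNat_of_nonneg hc0]
    set v : Wt S (n + 1) := fun _ i => (c : ℤ) * (n - i.val + 1) with hv
    have hE1 : (1 : ℤ) ≤ (ordGL k (n + 1) : ℤ) := by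
      have : 0 < ordGL k (n + 1) := Nat.card_pos
      exact_mod_cast this
    set y : ℕ → Wt S (n + 1) := fun j => h + (j * ordGL k (n + 1)) • v with hy
    have hyv : ∀ j σ i, y j σ i = h σ i + (j * ordGL k (n + 1) : ℤ) * (c * (n - i.val + 1)) := by
      intro j σ i
      simp only [hy, Pi.add_apply, Pi.smul_apply]
      rw [nsmul_eq_mul, hv]
      push_cast
      ring
    have hcnn : (0 : ℤ) ≤ c := Int.natCast_nonneg c
    have hydom : ∀ j, Dom (y j) := by
      intro j σ i i' hii'
      have h1 := hh σ hii'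
      have h2 : i.val < i'.val := hii'
      rw [hyv, hyv]
      have h3 : (0 : ℤ) ≤ (j * ordGL k (n + 1) : ℤ) * c := by positivity
      have h4 : ((i.val : ℤ)) < i'.val := by exact_mod_cast h2
      nlinarith
    have hydeep : ∀ j, 1 ≤ j → Deep N (y j) := by
      intro j hj σ
      have h3 : (c : ℤ) ≤ (j * ordGL k (n + 1) : ℤ) * c := by
        have : (1 : ℤ) ≤ (j : ℤ) * ordGL k (n + 1) := by
          have : (1 : ℤ) ≤ j := by exact_mod_cast hj
          nlinarith
        nlinarith
      have hN : N ≤ |N| := le_abs_self N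
      have hS : |h σ (Fin.last n)| ≤ ∑ σ, |h σ (Fin.last n)| :=
        Finset.single_le_sum (f := fun σ => |h σ (Fin.last n)|) (fun σ _ => abs_nonneg _)
          (Finset.mem_univ σ)
      have hS0 : 0 ≤ |h σ (Fin.last n)| := abs_nonneg _
      refine ⟨fun i => ?_, ?_⟩
      · rw [hyv, hyv]
        have h1 : h σ i.succ < h σ i.castSucc := hh σ Fin.castSucc_lt_succ
        simp only [Fin.val_castSucc, Fin.val_succ]
        push_cast
        nlinarith
      · rw [hyv]
        have h5 := neg_abs_le (h σ (Fin.last n))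
        simp only [Fin.val_last, sub_self, zero_add, mul_one]
        linarith
    have hcf0 : cf (ordW S (n + 1)) 0 = 1 ∨ cf (ordW S (n + 1)) 0 = -1 := by
      unfold cf
      simp only [Nat.choose_zero_right, Nat.cast_one, mul_one]
      exact neg_one_pow_eq_or ℤ _
    -- the recurrence for the multiplicities
    set a : P S (n + 1) := ∑ j ∈ range (ordW S (n + 1) + 1),
      AddMonoidAlgebra.single (y j) (cf (ordW S (n + 1)) j) with ha
    have hev : ∀ (g : GL (Fin (n + 1)) k) (x : Fin (n + 1) → Fˣ), IsEigen ι g x →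
        evx (pnt κ p t x) (LF s a) = 0 := by
      intro g x hx
      rw [ha, map_sum, map_sum]
      simp only [LF_single, map_zsmul]
      exact ev_rec ι κ t s hs g x hx h v
    have hadom : ∀ w ∈ a.coeff.support, Dom w := by
      intro w hw
      by_contra hcon
      rw [Finsupp.mem_support_iff] at hw
      apply hw
      rw [ha, AddMonoidAlgebra.coeff_sum, Finsupp.finsetSum_apply]
      refine Finset.sum_eq_zero fun j _ => ?_
      rw [AddMonoidAlgebra.coeff_single, Finsupp.single_apply, if_neg]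
      rintro rfl
      exact hcon (hydom j)
    have h1 := core ι hk hf κ hκ t ht s hs (Z τ) (hZ τ) hE' a hev
    have h2 : ∀ w, LF (fun h => (mult τ h w : ℤ)) a = 0 :=
      mult_zero ι κ t s D (θ τ) (mult τ) (hmult τ) a hadom hev
    have h3 : ∀ X : Wt S (n + 1) → M, LF X a =
        cf (ordW S (n + 1)) 0 • X h + ∑ j ∈ range (ordW S (n + 1)),
          cf (ordW S (n + 1)) (j + 1) • X (y (j + 1)) := by
      intro X
      rw [ha, map_sum, Finset.sum_range_succ', add_comm]
      simp only [LF_single]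
      congr 3
      simp [hy]
    have h4 : LF (fun h => Z τ h - ∑ w, mult τ h w • z w) a = 0 := by
      have e1 : LF (fun h => Z τ h - ∑ w, mult τ h w • z w) a =
          LF (Z τ) a - ∑ w, (LF (fun h => (mult τ h w : ℤ)) a) • z w := by
        simp only [LF_eq_sum, Finset.sum_smul, smul_sub, Finset.sum_sub_distrib]
        congr 1
        rw [Finset.sum_comm]
        refine Finset.sum_congr rfl fun w _ => ?_
        rw [Finset.smul_sum]
        refine Finset.sum_congr rfl fun w' _ => ?_
        rw [smul_eq_mul, mul_smul, natCast_zsmul]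
      rw [e1, h1]
      simp [h2]
    rw [h3] at h4
    have h5 : ∑ j ∈ range (ordW S (n + 1)), cf (ordW S (n + 1)) (j + 1) •
        (Z τ (y (j + 1)) - ∑ w, mult τ (y (j + 1)) w • z w) = 0 := by
      refine Finset.sum_eq_zero fun j _ => ?_
      rw [hdeep τ _ (hydom _) (hydeep _ (by omega)), sub_self, smul_zero]
    rw [h5, add_zero] at h4
    rcases hcf0 with h6 | h6
    · rw [h6, one_smul, sub_eq_zero] at h4
      exact h4
    · rw [h6, neg_smul, one_smul, neg_eq_zero, sub_eq_zero] at h4
      exact h4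

end Thm

end Pool.Agent.N28.BM
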