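import Pool.Agent.N28.BM.Main

/-!
# Strictly decreasing weights
-/

open Finset

namespace Pool.Agent.N28.BM

/-- Regular Hodge types: the entries at every embedding are strictly decreasing. -/
def Dom {S : Type} {d : ℕ} (h : Wt S d) : Prop := ∀ σ, StrictAnti (h σ)

section Alt

variable {S : Type} [Fintype S] [DecidableEq S] {d n : ℕ} {M : Type*} [AddCommGroup M]

lemma alt_actE (Z : Wt S d → M) (hZ : Alt Z) (π : S → Equiv.Perm (Fin d)) (h : Wt S d) :
    Z (actE π h) = sgnW π • Z h := by
  have main : ∀ A : Finset S, Z (fun σ => if σ ∈ A then h σ ∘ π σ else h σ) =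
      (∏ σ ∈ A, ((Equiv.Perm.sign (π σ) : ℤˣ) : ℤ)) • Z h := by
    intro A
    induction A using Finset.induction_on with
    | empty => simp
    | insert σ A hσ ih =>
      rw [Finset.prod_insert hσ, mul_smul, ← ih, ← hZ.perm _ σ (π σ)]
      congr 1
      funext τ
      unfold pw
      by_cases hτ : τ = σ
      · subst hτ
        simp [hσ]
      · rw [Function.update_of_ne hτ]
        simp [hτ]
  have := main univ
  simp only [Finset.mem_univ, if_true] at this
  rw [sgnW, ← this]
  rfl

open Classical in
/-- Normal form: the sorted weight with its sign, and zero for irregular weights. -/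
noncomputable def nf (h : Wt S d) : P S d :=
  if hh : ∃ π : S → Equiv.Perm (Fin d), Dom (actE π h) then
    sgnW hh.choose • AddMonoidAlgebra.single (actE hh.choose h) 1
  else 0

lemma sgnW_sq (π : S → Equiv.Perm (Fin d)) : sgnW π * sgnW π = 1 := by
  unfold sgnW
  rw [← Finset.prod_mul_distrib]
  refine Finset.prod_eq_one fun σ _ => ?_
  rcases Int.units_eq_one_or (Equiv.Perm.sign (π σ)) with h | h <;> simp [h]

lemma LF_nf (Z : Wt S (n + 1) → M) (hZ : Alt Z) (h : Wt S (n + 1)) : LF Z (nf h) = Z h := by
  classical
  unfold nf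
  split_ifs with hh
  · rw [map_zsmul, LF_single, one_smul, alt_actE Z hZ, smul_smul, sgnW_sq, one_smul]
  · rw [map_zero]
    have : ∃ σ, ¬ Function.Injective (h σ) := by
      by_contra hcon
      push Not at hcon
      apply hh
      choose π hπ using fun σ => exists_sort (h σ) (hcon σ)
      exact ⟨π, hπ⟩
    obtain ⟨σ, hσ⟩ := this
    rw [Function.Injective] at hσ
    push Not at hσ
    obtain ⟨i, j, h1, h2⟩ := hσ
    exact (hZ.zero h σ i j h2 h1).symm

/-- Normal forms of elements. -/
noncomputable def NF : P S d →+ P S d := LF nf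

lemma LF_NF (Z : Wt S (n + 1) → M) (hZ : Alt Z) (a : P S (n + 1)) : LF Z (NF a) = LF Z a := by
  unfold NF
  rw [LF_comp]
  congr 2
  funext h
  exact LF_nf Z hZ h

lemma NF_dom (a : P S d) : ∀ h ∈ (NF a).coeff.support, Dom h := by
  set T : AddSubgroup (P S d) :=
    { carrier := {b | ∀ h, ¬ Dom h → b.coeff h = 0}
      zero_mem' := by intro h _; simp
      add_mem' := by
        intro a b ha hb h hh
        rw [AddMonoidAlgebra.coeff_add, Finsupp.add_apply, ha h hh, hb h hh, add_zero]
      neg_mem' := by
        intro a ha h hh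
        rw [AddMonoidAlgebra.coeff_neg, Finsupp.neg_apply, ha h hh, neg_zero] } with hT
  have hmem : NF a ∈ T := by
    apply LF_mem
    intro h
    unfold nf
    split_ifs with hh
    · apply T.zsmul_mem
      intro w hw
      rw [AddMonoidAlgebra.coeff_single, Finsupp.single_apply, if_neg]
      intro hc
      rw [← hc] at hw
      exact hw hh.choose_spec
    · exact T.zero_mem
  intro h hh
  by_contra hcon
  rw [Finsupp.mem_support_iff] at hh
  exact hh (hmem h hcon)

lemma LF_eq_sum (Z : Wt S d → M) (a : P S d) : LF Z a = ∑ h ∈ a.coeff.support, a.coeff h • Z h := by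
  unfold LF
  simp [Finsupp.liftAddHom_apply, Finsupp.sum]

/-- Two alternating functions that agree on the strictly decreasing weights are equal. -/
lemma alt_ext (Z₁ Z₂ : Wt S (n + 1) → M) (h1 : Alt Z₁) (h2 : Alt Z₂)
    (he : ∀ h, Dom h → Z₁ h = Z₂ h) (h : Wt S (n + 1)) : Z₁ h = Z₂ h := by
  have e : ∀ a : P S (n + 1), LF Z₁ (NF a) = LF Z₂ (NF a) := by
    intro a
    rw [LF_eq_sum, LF_eq_sum]
    refine Finset.sum_congr rfl fun w hw => ?_
    rw [he w (NF_dom a w hw)]
  have := e (AddMonoidAlgebra.single h 1)
  rw [LF_NF _ h1, LF_NF _ h2, LF_single, LF_single, one_smul, one_smul] at this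
  exact this

lemma LF_dc (Z : Wt S d → M) (hZ : Alt Z) (π : S → Equiv.Perm (Fin d)) (a : P S d) :
    LF Z (dc π a) = sgnW π • LF Z a := by
  induction a using AddMonoidAlgebra.induction_linear with
  | zero => simp
  | add x y hx hy => rw [map_add, map_add, map_add, smul_add, hx, hy]
  | single h m => rw [dc_single, LF_single, LF_single, alt_actE Z hZ, smul_comm]

/-- Multiplication by an invariant element preserves alternating functions. -/
lemma alt_mul (Z : Wt S (n + 1) → M) (hZ : Alt Z) (F : P S (n + 1)) (hF : ∀ π, dc π F = F) :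
    Alt (fun h => LF Z (AddMonoidAlgebra.single h 1 * F)) where
  perm := by
    intro h σ ω
    have h1 : pw h σ ω = actE (Function.update 1 σ ω) h := by
      funext τ i
      by_cases hτ : τ = σ
      · subst hτ; simp [pw, actE]
      · simp [pw, actE, Function.update_of_ne hτ]
    have h2 : sgnW (Function.update (1 : S → Equiv.Perm (Fin (n + 1))) σ ω) =
        (Equiv.Perm.sign ω : ℤ) := by
      unfold sgnW
      rw [Finset.prod_eq_single σ]
      · simp
      · intro τ _ hτ; simp [Function.update_of_ne hτ]
      · simp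
    rw [← h2, ← LF_dc Z hZ, map_mul (dc _), hF, dc_single, h1]
  zero := by
    intro h σ i j hij he
    set δ : S → Equiv.Perm (Fin (n + 1)) := Function.update 1 σ (Equiv.swap i j) with hδ
    have hinv : ∀ w : Wt S (n + 1), actE δ (actE δ w) = w := by
      intro w
      funext τ a
      by_cases hτ : τ = σ
      · subst hτ; simp [actE, hδ]
      · simp [actE, hδ, Function.update_of_ne hτ]
    have hpw : ∀ w : Wt S (n + 1), actE δ w = pw w σ (Equiv.swap i j) := by
      intro w
      funext τ a
      by_cases hτ : τ = σ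
      · subst hτ; simp [pw, actE, hδ]
      · simp [pw, actE, hδ, Function.update_of_ne hτ]
    have hfix : actE δ h = h := by
      rw [hpw]
      unfold pw
      rw [Function.update_eq_self_iff]
      funext a
      simp only [Function.comp_apply]
      by_cases ha : a = i
      · subst ha; rw [Equiv.swap_apply_left, he]
      · by_cases hb : a = j
        · subst hb; rw [Equiv.swap_apply_right, he]
        · rw [Equiv.swap_apply_of_ne_of_ne ha hb]
    set a : P S (n + 1) := AddMonoidAlgebra.single h 1 * F with ha
    have hda : dc δ a = a := by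
      rw [ha, map_mul, hF, dc_single, hfix]
    have hcoef : ∀ w, a.coeff (actE δ w) = a.coeff w := by
      intro w
      have h1 : (dc δ a).coeff (actE δ w) = a.coeff w := by
        unfold dc
        rw [AddMonoidAlgebra.coeff_domCongr]
        simp
      rw [hda] at h1
      exact h1
    rw [LF_eq_sum]
    refine Finset.sum_involution (fun w _ => actE δ w) ?_ ?_ ?_ ?_
    · intro w _
      rw [hcoef, hpw, hZ.perm, Equiv.Perm.sign_swap hij]
      simp
    · intro w _ hne hc
      apply hne
      have h2 : w σ i = w σ j := by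
        have h3 := congrFun (congrFun hc σ) i
        rw [hpw] at h3
        simp only [pw, Function.update_self, Function.comp_apply, Equiv.swap_apply_left] at h3
        exact h3.symm
      rw [hZ.zero w σ i j hij h2, smul_zero]
    · intro w hw
      rw [Finsupp.mem_support_iff, hcoef]
      exact Finsupp.mem_support_iff.mp hw
    · intro w _
      exact hinv w

lemma alt_shift (Z : Wt S (n + 1) → M) (hZ : Alt Z) (σ : S) (m r : ℕ) :
    Alt (fun h => shift Z h σ m r) := by
  have h1 := alt_mul Z hZ (th σ m (MvPolynomial.esymm (Fin (n + 1)) ℤ r))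
    (fun π => dc_th π σ m _ (MvPolynomial.esymm_isSymmetric _ _ _))
  have h2 : (fun h => LF Z (AddMonoidAlgebra.single h 1 *
      th σ m (MvPolynomial.esymm (Fin (n + 1)) ℤ r))) = fun h => shift Z h σ m r := by
    funext h
    exact LF_mul_esymm Z h σ m r
  rwa [h2] at h1

/-- It suffices to require the equations at strictly decreasing weights. -/
lemma equations_of_dom {f : ℕ} (κ : S → ZMod f) (p : ℕ) (Z : Wt S (n + 1) → M) (hZ : Alt Z)
    (hE : ∀ h, Dom h → ∀ σ σ', κ σ' = κ σ + 1 → ∀ r, 1 ≤ r → r ≤ n + 1 →
      shift Z h σ p r = shift Z h σ' 1 r) : Equations κ p Z := by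
  intro σ σ' hσ r h1 h2 h
  have e2 := alt_shift Z hZ σ' 1 r
  simp only [Nat.cast_one] at e2
  exact alt_ext _ _ (alt_shift Z hZ σ p r) e2 (fun h hh => hE h hh σ σ' hσ r h1 h2) h

end Alt

end Pool.Agent.N28.BM
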