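import Pool.Agent.N28.BM.Points

/-!
# Solutions of the difference equations factor through the representation ring of `GL_d(k)`
-/

open Finset

namespace Pool.Agent.N28.BM

section Gen

variable {S : Type} [DecidableEq S] {n : ℕ} {M : Type*} [AddCommGroup M]

lemma LF_comp {M' : Type*} [AddCommGroup M'] (φ : M →+ M') (Z : Wt S n → M) (c : P S n) :
    φ (LF Z c) = LF (fun h => φ (Z h)) c := by
  induction c using AddMonoidAlgebra.induction_linear with
  | zero => simp
  | add x y hx hy => rw [map_add, map_add, hx, hy, map_add]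
  | single h m => rw [LF_single, LF_single, map_zsmul]

lemma LF_mem (Z : Wt S n → M) (T : AddSubgroup M) (hT : ∀ h, Z h ∈ T) (c : P S n) :
    LF Z c ∈ T := by
  induction c using AddMonoidAlgebra.induction_linear with
  | zero => simp [T.zero_mem]
  | add x y hx hy => rw [map_add]; exact T.add_mem hx hy
  | single h m => rw [LF_single]; exact T.zsmul_mem (hT h) m

/-- The values in the box generate all values of an alternating solution. -/
lemma box_span [Fintype S] {f : ℕ} (κ : S → ZMod f) (hκ : Function.Surjective κ) (hf : f ≠ 0)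
    (p : ℕ) (hp : 2 ≤ p) (Y : Wt S (n + 1) → M) (hY : Alt Y) (hE : Equations κ p Y)
    (σ₀ : S) (h0 : κ σ₀ = 0) (T : AddSubgroup M)
    (hT : ∀ b : (Fin n → Fin (p ^ f)) × Fin (p ^ f - 1), Y (boxW σ₀ b) ∈ T) :
    ∀ h, Y h ∈ T := by
  have : NeZero f := ⟨hf⟩
  refine mem_box Y hY σ₀ (p ^ f) ?_ ?_ ?_ T hT
  · calc 2 ≤ p := hp
      _ = p ^ 1 := (pow_one p).symm
      _ ≤ p ^ f := Nat.pow_le_pow_right (by omega) (by omega)
  · intro r h _ _
    have := chain κ hκ p Y hE σ₀ h0 (f - 1) σ₀ (by
      rw [h0, Nat.sub_add_cancel (Nat.one_le_iff_ne_zero.mpr hf)]; simp) 1 r h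
    rw [Nat.sub_add_cancel (Nat.one_le_iff_ne_zero.mpr hf), mul_one] at this
    simpa using this
  · intro σ _
    refine ⟨p ^ ((κ σ).val + f - 1 + 1) * 1, ?_⟩
    intro r h _ _
    have h1 : (κ σ).val + f - 1 + 1 = (κ σ).val + f := by omega
    have := chain κ hκ p Y hE σ₀ h0 ((κ σ).val + f - 1) σ (by
      rw [h1]; push_cast; simp) 1 r h
    rw [this]
    simp

end Gen

section Core

variable {k F : Type} [Field k] [Fintype k] [Field F] [IsAlgClosed F] (ι : k →+* F) {p f : ℕ}
  [hp : Fact p.Prime] [CharP F p] (hk : Fintype.card k = p ^ f) (hf : f ≠ 0)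
  {S : Type} [Fintype S] [DecidableEq S] {n : ℕ} (κ : S → ZMod f)
  (hκ : Function.Surjective κ) (t : Fˣ →* ℂˣ) (ht : Function.Injective t)
  (s : Wt S (n + 1) → P S (n + 1)) (hs : IsWeyl s)

omit [Fintype k] [IsAlgClosed F] [CharP F p] hp in
include ht in
lemma psi_inj (x x' : Fin (n + 1) → Fˣ)
    (h : ∀ r, MvPolynomial.aeval (fun i => ((t (x i) : ℂˣ) : ℂ))
      (MvPolynomial.esymm (Fin (n + 1)) ℤ r) =
      MvPolynomial.aeval (fun i => ((t (x' i) : ℂˣ) : ℂ))
      (MvPolynomial.esymm (Fin (n + 1)) ℤ r)) :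
    (univ : Finset (Fin (n + 1))).val.map x = univ.val.map x' := by
  have h1 : ∀ z : Fin (n + 1) → ℂ, ∏ i, (Polynomial.X - Polynomial.C (z i)) =
      ∑ j ∈ Finset.range (n + 1 + 1), (-1) ^ j *
        (Polynomial.C ((univ.val.map z).esymm j) * Polynomial.X ^ (n + 1 - j)) := by
    intro z
    have h2 := Multiset.prod_X_sub_X_eq_sum_esymm ((univ : Finset (Fin (n + 1))).val.map z)
    rw [Multiset.map_map] at h2
    have h3 : Multiset.card ((univ : Finset (Fin (n + 1))).val.map z) = n + 1 := by simp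
    rw [h3] at h2
    exact h2
  have h2 : (univ : Finset (Fin (n + 1))).val.map (fun i => ((t (x i) : ℂˣ) : ℂ)) =
      univ.val.map (fun i => ((t (x' i) : ℂˣ) : ℂ)) := by
    apply prod_inj
    rw [h1, h1]
    refine Finset.sum_congr rfl fun j _ => ?_
    have := h j
    rw [MvPolynomial.aeval_esymm_eq_multiset_esymm, MvPolynomial.aeval_esymm_eq_multiset_esymm]
      at this
    rw [this]
  have h3 : Function.Injective (Multiset.map (fun u : Fˣ => ((t u : ℂˣ) : ℂ))) :=
    Multiset.map_injective (Units.val_injective.comp ht)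
  apply h3
  rw [Multiset.map_map, Multiset.map_map]
  exact h2

include hk hf hκ ht hs in
/-- **The values of the Weyl characters in the box at the classes are linearly independent.** -/
lemma indep (σ₀ : S) (h0 : κ σ₀ = 0) (g : kˣ × (Fin n → k) → GL (Fin (n + 1)) k)
    (x : kˣ × (Fin n → k) → Fin (n + 1) → Fˣ)
    (hg : ∀ c, ((g c : GL (Fin (n + 1)) k) : Matrix (Fin (n + 1)) (Fin (n + 1)) k).charpoly =
      pol c) (hx : ∀ c, IsEigen ι (g c) (x c)) :
    LinearIndependent ℂ (fun (b : (Fin n → Fin (p ^ f)) × Fin (p ^ f - 1))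
      (c : kˣ × (Fin n → k)) => evx (pnt κ p t (x c)) (s (boxW σ₀ b))) := by
  classical
  set R := MvPolynomial.symmetricSubalgebra (Fin (n + 1)) ℤ with hR
  set ψ : kˣ × (Fin n → k) → (R →* ℂ) := fun c =>
    (((MvPolynomial.aeval (fun i => ((t (x c i) : ℂˣ) : ℂ)) :
      MvPolynomial (Fin (n + 1)) ℤ →ₐ[ℤ] ℂ).comp R.val : R →ₐ[ℤ] ℂ) : R →* ℂ) with hψ
  have hψinj : Function.Injective ψ := by
    intro c c' hcc
    have h1 : (univ : Finset (Fin (n + 1))).val.map (x c) = univ.val.map (x c') := by
      apply psi_inj t ht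
      intro r
      have := DFunLike.congr_fun hcc ⟨MvPolynomial.esymm (Fin (n + 1)) ℤ r,
        MvPolynomial.esymm_isSymmetric _ _ _⟩
      exact this
    have h2 : (pol c).map ι = (pol c').map ι := by
      have e1 := hx c
      have e2 := hx c'
      unfold IsEigen at e1 e2
      rw [hg] at e1 e2
      rw [e1, e2]
      have e3 : ∀ y : Fin (n + 1) → Fˣ, ∏ i, (Polynomial.X - Polynomial.C ((y i : Fˣ) : F)) =
          ((univ.val.map y).map (fun a : Fˣ => Polynomial.X - Polynomial.C (a : F))).prod := by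
        intro y
        rw [Multiset.map_map]
        rfl
      rw [e3, e3, h1]
    exact pol_inj (Polynomial.map_injective ι ι.injective h2)
  have hlin : LinearIndependent ℂ (fun c => (ψ c : R → ℂ)) :=
    (linearIndependent_monoidHom R ℂ).comp ψ hψinj
  -- duality
  have hdual : ∀ w : kˣ × (Fin n → k) → ℂ,
      (∀ h, ∑ c, w c * evx (pnt κ p t (x c)) (s h) = 0) → w = 0 := by
    intro w hw
    set Φ : P S (n + 1) →+ ℂ :=
      { toFun := fun a => ∑ c, w c * evx (pnt κ p t (x c)) a
        map_zero' := by simp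
        map_add' := by
          intro a b
          simp [mul_add, Finset.sum_add_distrib] } with hΦ
    have hΦs : ∀ a, Φ (LF s a) = 0 := by
      intro a
      rw [LF_comp]
      have : (fun h => Φ (s h)) = fun _ => 0 := by
        funext h
        exact hw h
      rw [this]
      have hT := LF_mem (fun _ : Wt S (n + 1) => (0 : ℂ)) ⊥ (fun _ => by simp) a
      simpa using hT
    have h2 : ∑ c, w c • (ψ c : R → ℂ) = 0 := by
      funext G
      have h3 := hΦs (AddMonoidAlgebra.single (fun _ => rho n) 1 * th σ₀ 1 G.1)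
      rw [LF_mul s hs _ _ (fun π => dc_th π σ₀ 1 G.1 G.2), s_rho s hs, one_mul] at h3
      rw [Finset.sum_apply]
      simp only [Pi.smul_apply, smul_eq_mul, Pi.zero_apply]
      rw [← h3]
      simp only [hΦ, AddMonoidHom.coe_mk, ZeroHom.coe_mk, evx_th]
      refine Finset.sum_congr rfl fun c _ => ?_
      simp only [hψ, pnt, h0, ZMod.val_zero, pow_zero, pow_one]
      rfl
    have h3 := Fintype.linearIndependent_iff.mp hlin w h2
    funext c
    exact h3 c
  -- the span of all values
  have hspan : (⊤ : Submodule ℂ (kˣ × (Fin n → k) → ℂ)) ≤ Submodule.span ℂ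
      (Set.range fun h : Wt S (n + 1) => fun c => evx (pnt κ p t (x c)) (s h)) := by
    by_contra hcon
    obtain ⟨φ, hφ0, hφ⟩ := Submodule.exists_le_ker_of_lt_top _
      (lt_of_le_of_ne le_top (fun h => hcon h.ge))
    apply hφ0
    have hφ1 : ∀ v, φ v = ∑ c, φ (Pi.single c 1) * v c := by
      intro v
      conv_lhs => rw [pi_eq_sum_univ' v]
      rw [map_sum]
      refine Finset.sum_congr rfl fun c _ => ?_
      rw [map_smul, smul_eq_mul, mul_comm]
    have hw := hdual (fun c => φ (Pi.single c 1)) (fun h => by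
      have := hφ (Submodule.subset_span ⟨h, rfl⟩)
      rw [LinearMap.mem_ker, hφ1] at this
      exact this)
    apply LinearMap.ext
    intro v
    rw [hφ1]
    simp only [LinearMap.zero_apply]
    refine Finset.sum_eq_zero fun c _ => ?_
    rw [show φ (Pi.single c 1) = 0 from congrFun hw c, zero_mul]
  apply linearIndependent_of_top_le_span_of_card_eq_finrank
  · refine hspan.trans ?_
    rw [Submodule.span_le]
    rintro _ ⟨h, rfl⟩
    refine box_span κ hκ hf p hp.out.two_le
      (fun (h : Wt S (n + 1)) (c : kˣ × (Fin n → k)) => evx (pnt κ p t (x c)) (s h)) ?_ ?_ σ₀ h0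
      (Submodule.toAddSubgroup (Submodule.span ℂ _)) ?_ h
    · have hA := weyl_alt s hs
      constructor
      · intro h σ π
        funext c
        simp only [hA.perm h σ π, map_zsmul, Pi.smul_apply]
      · intro h σ i j hij he
        funext c
        simp only [hA.zero h σ i j hij he, map_zero, Pi.zero_apply]
    · intro σ σ' hσ r h1 h2 h
      have := fun c => eqn_weyl ι hk κ hf t s hs (g c) (x c) (hx c) σ σ' hσ r h1 h2 h
      funext c
      have h3 := this c
      simp only [shift, Finset.sum_apply] at h3 ⊢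
      exact h3
    · intro b
      exact Submodule.subset_span ⟨b, rfl⟩
  · simp only [Module.finrank_fintype_fun_eq_card, Fintype.card_prod, Fintype.card_fun,
      Fintype.card_fin]
    rw [Fintype.card_units, hk, mul_comm]

include hk hf hκ ht hs in
/-- **Core theorem.** An alternating solution `Z` of the difference equations kills every
combination of weights whose Weyl characters cancel on all classes of `GL_d(k)`. -/
theorem core {M : Type*} [AddCommGroup M] (Z : Wt S (n + 1) → M) (hZ : Alt Z)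
    (hE : Equations κ p Z) (a : P S (n + 1))
    (ha : ∀ (g : GL (Fin (n + 1)) k) (x : Fin (n + 1) → Fˣ), IsEigen ι g x →
      evx (pnt κ p t x) (LF s a) = 0) : LF Z a = 0 := by
  classical
  obtain ⟨σ₀, h0⟩ := hκ 0
  choose g x hg hx using fun c : kˣ × (Fin n → k) => exists_eigen ι c
  have hV := indep ι hk hf κ hκ t ht s hs σ₀ h0 g x hg hx
  set Y : Wt S (n + 1) → M × (kˣ × (Fin n → k) → ℂ) :=
    fun h => (Z h, fun c => evx (pnt κ p t (x c)) (s h)) with hYdef
  have hA := weyl_alt s hs
  have hY : Alt Y := by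
    constructor
    · intro h σ π
      refine Prod.ext ?_ ?_
      · exact hZ.perm h σ π
      · funext c
        simp only [hYdef, hA.perm h σ π, map_zsmul, Prod.smul_snd, Pi.smul_apply]
    · intro h σ i j hij he
      refine Prod.ext ?_ ?_
      · exact hZ.zero h σ i j hij he
      · funext c
        simp only [hYdef, hA.zero h σ i j hij he, map_zero, Prod.snd_zero, Pi.zero_apply]
  have hYE : Equations κ p Y := by
    intro σ σ' hσ r h1 h2 h
    refine Prod.ext ?_ ?_
    · have := hE σ σ' hσ r h1 h2 h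
      simp only [shift, Prod.fst_sum] at this ⊢
      exact this
    · funext c
      have := eqn_weyl ι hk κ hf t s hs (g c) (x c) (hx c) σ σ' hσ r h1 h2 h
      simp only [shift, Prod.snd_sum, Finset.sum_apply] at this ⊢
      exact this
  set T : Submodule ℤ (M × (kˣ × (Fin n → k) → ℂ)) := Submodule.span ℤ
    (Set.range fun b : (Fin n → Fin (p ^ f)) × Fin (p ^ f - 1) => Y (boxW σ₀ b)) with hTdef
  have hmem : LF Y a ∈ T.toAddSubgroup := by
    apply LF_mem
    exact box_span κ hκ hf p hp.out.two_le Y hY hYE σ₀ h0 T.toAddSubgroup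
      (fun b => Submodule.subset_span ⟨b, rfl⟩)
  have hmem' : LF Y a ∈ T := hmem
  rw [hTdef, Submodule.mem_span_range_iff_exists_fun] at hmem'
  obtain ⟨m, hm⟩ := hmem'
  have hfst : LF Z a = ∑ b, m b • Z (boxW σ₀ b) := by
    have h1 := LF_comp (AddMonoidHom.fst M (kˣ × (Fin n → k) → ℂ)) Y a
    have h2 := congrArg (AddMonoidHom.fst M (kˣ × (Fin n → k) → ℂ)) hm
    rw [map_sum, h1] at h2
    rw [show LF Z a = LF (fun h => (AddMonoidHom.fst M (kˣ × (Fin n → k) → ℂ)) (Y h)) a from rfl,
      ← h2]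
    refine Finset.sum_congr rfl fun b _ => ?_
    rw [map_zsmul]
    rfl
  have hsnd : ∑ b, (m b : ℂ) • (fun c : kˣ × (Fin n → k) =>
      evx (pnt κ p t (x c)) (s (boxW σ₀ b))) = 0 := by
    funext c
    have h1 := LF_comp (M' := ℂ) ((Pi.evalAddMonoidHom (fun _ => ℂ) c).comp
      (AddMonoidHom.snd M (kˣ × (Fin n → k) → ℂ))) Y a
    have h2 := congrArg ((Pi.evalAddMonoidHom (fun _ => ℂ) c).comp
      (AddMonoidHom.snd M (kˣ × (Fin n → k) → ℂ))) hm
    rw [map_sum, h1] at h2
    have h3 := LF_comp ((evx (pnt κ p t (x c)) : P S (n + 1) →ₐ[ℤ] ℂ) : P S (n + 1) →+ ℂ) s a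
    have h4 := ha (g c) (x c) (hx c)
    have h5 : LF (fun h => (((Pi.evalAddMonoidHom (fun _ => ℂ) c).comp
      (AddMonoidHom.snd M (kˣ × (Fin n → k) → ℂ))) (Y h))) a = 0 := by
      rw [← h4]
      exact h3.symm
    rw [h5] at h2
    rw [Finset.sum_apply, Pi.zero_apply, ← h2]
    refine Finset.sum_congr rfl fun b _ => ?_
    rw [map_zsmul, zsmul_eq_mul]
    rfl
  have hm0 := Fintype.linearIndependent_iff.mp hV (fun b => (m b : ℂ)) hsnd
  rw [hfst]
  refine Finset.sum_eq_zero fun b _ => ?_
  have : m b = 0 := by exact_mod_cast hm0 b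
  rw [this, zero_smul]

end Core

end Pool.Agent.N28.BM
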