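import Pool.Agent.N28.BM.Weyl

/-!
# The classes of semisimple elements as points
-/

open Finset Polynomial

namespace Pool.Agent.N28.BM

/-- `x` lists the eigenvalues of `g ∈ GL_d(k)` in `F`, with multiplicities. -/
def IsEigen {k F : Type} [Field k] [Field F] {d : ℕ} (ι : k →+* F)
    (g : GL (Fin d) k) (x : Fin d → Fˣ) : Prop :=
  ((g : Matrix (Fin d) (Fin d) k).charpoly).map ι = ∏ i, (X - C ((x i : Fˣ) : F))

/-- The lifted eigenvalues: at the embedding `σ` with residue embedding `ι ^ (p ^ κ σ)` these are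
the `p ^ κ σ`-th powers of the lifts `t (x i)`. -/
def pnt {S F : Type} [Field F] {f : ℕ} (κ : S → ZMod f) (p : ℕ) (t : Fˣ →* ℂˣ) {d : ℕ}
    (x : Fin d → Fˣ) : S → Fin d → ℂˣ := fun σ i => (t (x i)) ^ (p ^ (κ σ).val)

lemma prod_inj {K : Type} [Field K] {d : ℕ} (y y' : Fin d → K)
    (h : ∏ i, (X - C (y i)) = ∏ i, (X - C (y' i))) :
    (univ : Finset (Fin d)).val.map y = univ.val.map y' := by
  have key : ∀ z : Fin d → K, (∏ i, (X - C (z i))).roots = univ.val.map z := by
    intro z
    have : (∏ i, (X - C (z i))) = ((univ.val.map z).map (fun a => X - C a)).prod := by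
      rw [Multiset.map_map]; rfl
    rw [this, roots_multiset_prod_X_sub_C]
  rw [← key, ← key, h]

section Frob

variable {k F : Type} [Field k] [Fintype k] [Field F] (ι : k →+* F) {p f : ℕ} [Fact p.Prime]
  [CharP F p] (hk : Fintype.card k = p ^ f)

include hk in
lemma frob_stable {d : ℕ} (g : GL (Fin d) k) (x : Fin d → Fˣ) (hx : IsEigen ι g x) :
    (univ : Finset (Fin d)).val.map (fun i => x i ^ (p ^ f)) = univ.val.map x := by
  have h1 : (univ : Finset (Fin d)).val.map (fun i => ((x i : Fˣ) : F) ^ (p ^ f)) =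
      univ.val.map (fun i => ((x i : Fˣ) : F)) := by
    apply prod_inj
    have h2 : (∏ i, (X - C ((x i : Fˣ) : F))).map (iterateFrobenius F p f) =
        ∏ i, (X - C (((x i : Fˣ) : F) ^ (p ^ f))) := by
      rw [Polynomial.map_prod]
      refine Finset.prod_congr rfl fun i _ => ?_
      simp [iterateFrobenius_def]
    rw [← h2, ← hx, Polynomial.map_map]
    congr 1
    ext a
    rw [RingHom.comp_apply, iterateFrobenius_def, ← map_pow, ← hk, FiniteField.pow_card]
  have h3 : Function.Injective (Multiset.map (fun u : Fˣ => (u : F))) :=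
    Multiset.map_injective Units.val_injective
  apply h3
  rw [Multiset.map_map, Multiset.map_map]
  simpa [Function.comp_def] using h1

include hk in
lemma mult_periodic {d : ℕ} (t : Fˣ →* ℂˣ) (g : GL (Fin d) k) (x : Fin d → Fˣ)
    (hx : IsEigen ι g x) (a : ℕ) :
    (univ : Finset (Fin d)).val.map (fun i => (t (x i)) ^ (p ^ (a % f))) =
      univ.val.map (fun i => (t (x i)) ^ (p ^ a)) := by
  have hper : Function.Periodic
      (fun a : ℕ => (univ : Finset (Fin d)).val.map (fun i => (t (x i)) ^ (p ^ a))) f := by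
    intro a
    simp only
    have h1 : (univ : Finset (Fin d)).val.map (fun i => (t (x i)) ^ (p ^ (a + f))) =
        (univ.val.map (fun i => x i ^ (p ^ f))).map (fun z => (t z) ^ (p ^ a)) := by
      rw [Multiset.map_map]
      refine Multiset.map_congr rfl fun i _ => ?_
      simp only [Function.comp_apply, map_pow]
      rw [← pow_mul, ← pow_add, add_comm f a]
    rw [h1, frob_stable ι hk g x hx, Multiset.map_map]
    rfl
  exact hper.map_mod_nat a

include hk in
lemma pnt_step {S : Type} {d : ℕ} (κ : S → ZMod f) (hf : f ≠ 0) (t : Fˣ →* ℂˣ)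
    (g : GL (Fin d) k) (x : Fin d → Fˣ) (hx : IsEigen ι g x) (σ σ' : S) (hσ : κ σ' = κ σ + 1) :
    (univ : Finset (Fin d)).val.map (fun i => ((pnt κ p t x σ i : ℂˣ) : ℂ) ^ p) =
      univ.val.map (fun i => ((pnt κ p t x σ' i : ℂˣ) : ℂ) ^ 1) := by
  have : NeZero f := ⟨hf⟩
  have h1 : (κ σ').val = ((κ σ).val + 1) % f := by
    rw [hσ, ZMod.val_add, ZMod.val_one_eq_one_mod, Nat.add_mod_mod]
  have h2 := mult_periodic ι hk t g x hx ((κ σ).val + 1)
  rw [← h1] at h2
  have h3 := congrArg (Multiset.map (fun u : ℂˣ => (u : ℂ))) h2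
  rw [Multiset.map_map, Multiset.map_map] at h3
  simp only [pnt, pow_one]
  refine Eq.trans ?_ (Eq.trans h3.symm ?_)
  · refine Multiset.map_congr rfl fun i _ => ?_
    simp only [Function.comp_apply, Units.val_pow_eq_pow_val]
    rw [← pow_mul, pow_succ]
  · refine Multiset.map_congr rfl fun i _ => ?_
    simp

include hk in
/-- The values of the Weyl characters at the classes of `GL_d(k)` satisfy the equations. -/
lemma eqn_weyl {S : Type} [Fintype S] [DecidableEq S] {n : ℕ} (κ : S → ZMod f) (hf : f ≠ 0)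
    (t : Fˣ →* ℂˣ) (s : Wt S (n + 1) → P S (n + 1)) (hs : IsWeyl s)
    (g : GL (Fin (n + 1)) k) (x : Fin (n + 1) → Fˣ) (hx : IsEigen ι g x) :
    Equations κ p (fun h => evx (pnt κ p t x) (s h)) := by
  intro σ σ' hσ r _ _ h
  exact shift_weyl s hs (pnt κ p t x) σ σ' p 1 (pnt_step ι hk κ hf t g x hx σ σ' hσ) r h

end Frob

section Exist

variable {k F : Type} [Field k] [Field F] [IsAlgClosed F] (ι : k →+* F) {n : ℕ}

/-- The polynomial with given coefficients. -/
noncomputable def pol (c : kˣ × (Fin n → k)) : k[X] :=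
  X ^ (n + 1) + ∑ i : Fin (n + 1), C ((Fin.cons (c.1 : k) c.2 : Fin (n + 1) → k) i) * X ^ (i : ℕ)

lemma pol_monic (c : kˣ × (Fin n → k)) : (pol c).Monic :=
  monic_X_pow_add (Polynomial.degree_sum_fin_lt _)

lemma pol_natDegree (c : kˣ × (Fin n → k)) : (pol c).natDegree = n + 1 := by
  unfold pol
  rw [natDegree_add_eq_left_of_degree_lt, natDegree_X_pow]
  rw [degree_X_pow]
  exact Polynomial.degree_sum_fin_lt _

lemma pol_coeff (c : kˣ × (Fin n → k)) (i : Fin (n + 1)) :
    (pol c).coeff i = (Fin.cons (c.1 : k) c.2 : Fin (n + 1) → k) i := by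
  unfold pol
  rw [coeff_add, coeff_X_pow, if_neg (by have := i.2; omega), zero_add, finsetSum_coeff]
  rw [Finset.sum_eq_single i]
  · simp
  · intro j _ hj
    rw [coeff_C_mul, coeff_X_pow, if_neg (by intro h; exact hj (Fin.ext h.symm)), mul_zero]
  · simp

lemma pol_inj : Function.Injective (pol : kˣ × (Fin n → k) → k[X]) := by
  intro c c' h
  have h1 : ∀ i, (Fin.cons (c.1 : k) c.2 : Fin (n + 1) → k) i =
      (Fin.cons (c'.1 : k) c'.2 : Fin (n + 1) → k) i := by
    intro i
    rw [← pol_coeff, ← pol_coeff, h]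
  ext i
  · simpa using h1 0
  · simpa using h1 i.succ

/-- Every such polynomial is the characteristic polynomial of an invertible matrix, and its
eigenvalues can be listed. -/
lemma exists_eigen (c : kˣ × (Fin n → k)) : ∃ (g : GL (Fin (n + 1)) k) (x : Fin (n + 1) → Fˣ),
    ((g : Matrix (Fin (n + 1)) (Fin (n + 1)) k).charpoly = pol c) ∧ IsEigen ι g x := by
  classical
  have hm := pol_monic c
  set pb := AdjoinRoot.powerBasis' hm with hpb
  have hdim : pb.dim = n + 1 := by
    rw [hpb, AdjoinRoot.powerBasis'_dim, pol_natDegree]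
  set A : Matrix (Fin (n + 1)) (Fin (n + 1)) k :=
    Matrix.reindex (finCongr hdim) (finCongr hdim) (Algebra.leftMulMatrix pb.basis pb.gen) with hA
  have hchar : A.charpoly = pol c := by
    rw [hA, Matrix.charpoly_reindex, charpoly_leftMulMatrix, hpb, AdjoinRoot.powerBasis'_gen,
      AdjoinRoot.minpoly_root hm.ne_zero, hm.leadingCoeff, inv_one, C_1, mul_one]
  have hdet : A.det ≠ 0 := by
    rw [Matrix.det_eq_sign_charpoly_coeff, hchar]
    have := pol_coeff c 0
    simp only [Fin.val_zero, Fin.cons_zero] at this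
    rw [this]
    simp
  have hsplit := IsAlgClosed.splits ((pol c).map ι)
  have hm' : ((pol c).map ι).Monic := hm.map ι
  have hprod := hsplit.eq_prod_roots_of_monic hm'
  have hcard : Multiset.card ((pol c).map ι).roots = n + 1 := by
    rw [← hsplit.natDegree_eq_card_roots, natDegree_map, pol_natDegree]
  obtain ⟨z, hz⟩ : ∃ z : Fin (n + 1) → F, univ.val.map z = ((pol c).map ι).roots := by
    refine ⟨fun i => (((pol c).map ι).roots.toList).get (i.cast (by
      rw [Multiset.length_toList, hcard])), ?_⟩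
    rw [Fin.univ_val_map]
    conv_rhs => rw [← Multiset.coe_toList ((pol c).map ι).roots]
    congr 1
    apply List.ext_get
    · rw [List.length_ofFn, Multiset.length_toList, hcard]
    · intro i h1 h2
      rw [List.get_ofFn]
      rfl
  have hz2 : (pol c).map ι = ∏ i, (X - C (z i)) := by
    rw [hprod, ← hz, Multiset.map_map]
    rfl
  have hz0 : ∀ i, z i ≠ 0 := by
    intro i hi
    have h1 : ((pol c).map ι).eval 0 = 0 := by
      rw [hz2, eval_prod]
      apply Finset.prod_eq_zero (Finset.mem_univ i)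
      simp [hi]
    rw [← coeff_zero_eq_eval_zero, coeff_map] at h1
    have := pol_coeff c 0
    simp only [Fin.val_zero, Fin.cons_zero] at this
    rw [this, map_eq_zero] at h1
    exact c.1.ne_zero h1
  refine ⟨Matrix.GeneralLinearGroup.mkOfDetNeZero A hdet, fun i => Units.mk0 (z i) (hz0 i), ?_, ?_⟩
  · exact hchar
  · unfold IsEigen
    have : ((Matrix.GeneralLinearGroup.mkOfDetNeZero A hdet : GL (Fin (n + 1)) k) :
      Matrix (Fin (n + 1)) (Fin (n + 1)) k) = A := rfl
    rw [this, hchar, hz2]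
    rfl

end Exist

end Pool.Agent.N28.BM
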