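import Mathlib

/-!
# Alternating functions of labelled Hodge-Tate weights and difference equations

`Wt S d`: tuples of `d` integers for each embedding `σ ∈ S`. The group ring of `Wt S d` acts on the
functions of the weights. We translate difference equations into statements on this action.
-/

open Finset

namespace Pool.Agent.N28.BM

/-- Tuples of `d` integers, one tuple for each embedding `σ ∈ S` (labelled Hodge-Tate weights). -/
abbrev Wt (S : Type) (d : ℕ) : Type := S → Fin d → ℤ

section Defs

variable {S : Type} [DecidableEq S] {d : ℕ} {M : Type*} [AddCommGroup M]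

/-- Permute the entries at the embedding `σ`. -/
def pw (h : Wt S d) (σ : S) (π : Equiv.Perm (Fin d)) : Wt S d := Function.update h σ (h σ ∘ π)

/-- Add `m` to the entries with index in `I` at the embedding `σ`. -/
def inc (h : Wt S d) (σ : S) (m : ℤ) (I : Finset (Fin d)) : Wt S d :=
  Function.update h σ (fun i => h σ i + if i ∈ I then m else 0)

/-- Alternating functions of the weights: a permutation of the entries at one embedding changes the
value by its sign, and the value is zero if two entries at one embedding are equal. -/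
structure Alt (Z : Wt S d → M) : Prop where
  perm : ∀ h σ (π : Equiv.Perm (Fin d)), Z (pw h σ π) = (Equiv.Perm.sign π : ℤ) • Z h
  zero : ∀ h σ i j, i ≠ j → h σ i = h σ j → Z h = 0

/-- The sum of the values of `Z` over all ways to add `m` to `r` entries at the embedding `σ`. -/
def shift (Z : Wt S d → M) (h : Wt S d) (σ : S) (m : ℤ) (r : ℕ) : M :=
  ∑ I ∈ (univ : Finset (Fin d)).powersetCard r, Z (inc h σ m I)

/-- The group ring of the weights. -/
abbrev P (S : Type) (d : ℕ) : Type := AddMonoidAlgebra ℤ (Wt S d)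

/-- The additive extension of a function of the weights to the group ring. -/
noncomputable def LF (Z : Wt S d → M) : P S d →+ M :=
  (Finsupp.liftAddHom (fun h => (zmultiplesHom M (Z h)))).comp
    (AddMonoidAlgebra.coeffAddEquiv (R := ℤ) (M := Wt S d)).toAddMonoidHom

lemma LF_single (Z : Wt S d → M) (h : Wt S d) (n : ℤ) :
    LF Z (AddMonoidAlgebra.single h n) = n • Z h := by
  simp [LF]

/-- The exponent of the variable `x_{σ,i}`. -/
def un (σ : S) (i : Fin d) : Wt S d := Pi.single σ (Pi.single i 1)

/-- Substitution of the `m`-th powers of the variables at `σ`. -/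
noncomputable def th (σ : S) (m : ℕ) : MvPolynomial (Fin d) ℤ →ₐ[ℤ] P S d :=
  MvPolynomial.aeval (fun i => AddMonoidAlgebra.single (m • un σ i) (1 : ℤ))

lemma prod_single (σ : S) (m : ℕ) (I : Finset (Fin d)) :
    ∏ i ∈ I, (AddMonoidAlgebra.single (m • un σ i) (1 : ℤ) : P S d) =
      AddMonoidAlgebra.single (∑ i ∈ I, m • un σ i) 1 := by
  classical
  induction I using Finset.induction_on with
  | empty => simp [AddMonoidAlgebra.one_def]
  | insert a s ha ih => rw [Finset.prod_insert ha, Finset.sum_insert ha, ih,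
      AddMonoidAlgebra.single_mul_single, one_mul]

lemma add_sum_un (h : Wt S d) (σ : S) (m : ℕ) (I : Finset (Fin d)) :
    h + ∑ i ∈ I, m • un σ i = inc h σ m I := by
  classical
  funext τ j
  simp only [Pi.add_apply, Finset.sum_apply, Pi.smul_apply, un, inc]
  by_cases hτ : τ = σ
  · subst hτ
    simp only [Pi.single_eq_same, Function.update_self]
    congr 1
    simp [Pi.single_apply, Finset.sum_ite_eq]
  · simp [Function.update_of_ne hτ, Pi.single_eq_of_ne hτ]

lemma LF_mul_esymm (Z : Wt S d → M) (h : Wt S d) (σ : S) (m r : ℕ) :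
    LF Z (AddMonoidAlgebra.single h 1 * th σ m (MvPolynomial.esymm (Fin d) ℤ r)) =
      shift Z h σ m r := by
  rw [MvPolynomial.esymm, map_sum, Finset.mul_sum, map_sum, shift]
  refine Finset.sum_congr rfl fun I _ => ?_
  rw [map_prod]
  simp only [th, MvPolynomial.aeval_X]
  rw [prod_single, AddMonoidAlgebra.single_mul_single, one_mul, LF_single, one_smul, add_sum_un]

/-- The ideal of the elements which kill `Z`. -/
noncomputable def J (Z : Wt S d → M) : Ideal (P S d) where
  carrier := {a | ∀ b, LF Z (b * a) = 0}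
  add_mem' := by
    intro a b ha hb c
    rw [mul_add, map_add, ha, hb, add_zero]
  zero_mem' := by intro c; simp
  smul_mem' := by
    intro c a ha b
    rw [smul_eq_mul, ← mul_assoc]
    exact ha _

lemma mem_J (Z : Wt S d → M) (a : P S d)
    (ha : ∀ h, LF Z (AddMonoidAlgebra.single h 1 * a) = 0) : a ∈ J Z := by
  intro b
  induction b using AddMonoidAlgebra.induction_linear with
  | zero => simp
  | add x y hx hy => rw [add_mul, map_add, hx, hy, add_zero]
  | single h n =>
    have : (AddMonoidAlgebra.single h n : P S d) * a = n • (AddMonoidAlgebra.single h 1 * a) := by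
      rw [← smul_mul_assoc]
      congr 1
      simp
    rw [this, map_zsmul, ha, smul_zero]

/-- If the elementary symmetric polynomials in the `p`-th powers of the variables at `σ` and in the
variables at `σ'` act in the same way, the same holds for all symmetric polynomials. -/
lemma rel_sym (Z : Wt S d → M) (σ σ' : S) (p : ℕ)
    (hE : ∀ r, 1 ≤ r → r ≤ d → ∀ h, shift Z h σ p r = shift Z h σ' 1 r)
    (F : MvPolynomial (Fin d) ℤ) (hF : F.IsSymmetric) : th σ p F - th σ' 1 F ∈ J Z := by
  obtain ⟨G, hG⟩ := MvPolynomial.esymmAlgHom_surjective (σ := Fin d) ℤ (n := d) (by simp)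
    ⟨F, hF⟩
  have key : ((Ideal.Quotient.mkₐ ℤ (J Z)).comp (th σ p)).comp
      (MvPolynomial.aeval (fun i : Fin d => MvPolynomial.esymm (Fin d) ℤ (i + 1))) =
      ((Ideal.Quotient.mkₐ ℤ (J Z)).comp (th σ' 1)).comp
      (MvPolynomial.aeval (fun i : Fin d => MvPolynomial.esymm (Fin d) ℤ (i + 1))) := by
    apply MvPolynomial.algHom_ext
    intro i
    simp only [AlgHom.comp_apply, MvPolynomial.aeval_X]
    rw [Ideal.Quotient.mkₐ_eq_mk, Ideal.Quotient.mk_eq_mk_iff_sub_mem]
    apply mem_J
    intro h
    rw [mul_sub, map_sub, LF_mul_esymm, LF_mul_esymm]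
    have := hE (i + 1) (by omega) (by have := i.2; omega) h
    rw [this]
    simp
  have hF' : F = MvPolynomial.aeval (fun i : Fin d => MvPolynomial.esymm (Fin d) ℤ (i + 1)) G := by
    have h1 : ((MvPolynomial.esymmAlgHom (Fin d) ℤ d G : _) : MvPolynomial (Fin d) ℤ) = F := by
      rw [hG]
    rw [← h1, MvPolynomial.esymmAlgHom_apply]
  rw [← Ideal.Quotient.mk_eq_mk_iff_sub_mem]
  have := DFunLike.congr_fun key G
  simp only [AlgHom.comp_apply] at this
  rw [← hF'] at this
  simpa [Ideal.Quotient.mkₐ_eq_mk] using this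

lemma th_expand (σ : S) (p m : ℕ) (F : MvPolynomial (Fin d) ℤ) :
    (th σ p (MvPolynomial.expand m F) : P S d) = th σ (p * m) F := by
  have : (th σ p : _ →ₐ[ℤ] P S d).comp (MvPolynomial.expand m) = th σ (p * m) := by
    apply MvPolynomial.algHom_ext
    intro i
    simp only [AlgHom.comp_apply, MvPolynomial.expand_X, map_pow, th, MvPolynomial.aeval_X]
    rw [AddMonoidAlgebra.single_pow, one_pow, smul_smul, mul_comm]
  exact DFunLike.congr_fun this F

lemma expand_sym (m : ℕ) (F : MvPolynomial (Fin d) ℤ) (hF : F.IsSymmetric) :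
    (MvPolynomial.expand m F).IsSymmetric := by
  intro e
  rw [MvPolynomial.rename_expand, hF e]

lemma rel_mul (Z : Wt S d → M) (σ σ' : S) (p : ℕ)
    (hE : ∀ r, 1 ≤ r → r ≤ d → ∀ h, shift Z h σ p r = shift Z h σ' 1 r)
    (m r : ℕ) (h : Wt S d) : shift Z h σ (p * m : ℕ) r = shift Z h σ' m r := by
  have h1 := rel_sym Z σ σ' p hE _ (expand_sym m _ (MvPolynomial.esymm_isSymmetric (Fin d) ℤ r))
  rw [th_expand, th_expand, one_mul] at h1
  have h2 := h1 (AddMonoidAlgebra.single h 1)
  rw [mul_sub, map_sub, LF_mul_esymm, LF_mul_esymm, sub_eq_zero] at h2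
  exact h2

/-- The difference equations: step `p` at the embedding `σ` against step `1` at the embedding `σ'`
whenever the residue embedding of `σ'` is the Frobenius conjugate of that of `σ`. -/
def Equations {f : ℕ} (κ : S → ZMod f) (p : ℕ) (Z : Wt S d → M) : Prop :=
  ∀ σ σ', κ σ' = κ σ + 1 → ∀ r, 1 ≤ r → r ≤ d → ∀ h, shift Z h σ p r = shift Z h σ' 1 r

/-- Iterated relations. -/
lemma chain {f : ℕ} (κ : S → ZMod f) (hκ : Function.Surjective κ) (p : ℕ) (Z : Wt S d → M)
    (hE : Equations κ p Z) (σ₀ : S) (h0 : κ σ₀ = 0) (j : ℕ) :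
    ∀ (σ : S), κ σ = ((j + 1 : ℕ) : ZMod f) → ∀ (m r : ℕ) (h : Wt S d),
      shift Z h σ₀ (p ^ (j + 1) * m : ℕ) r = shift Z h σ m r := by
  induction j with
  | zero =>
    intro σ hσ m r h
    rw [zero_add, pow_one]
    exact rel_mul Z σ₀ σ p (fun r h1 h2 h => hE σ₀ σ (by rw [hσ, h0]; simp) r h1 h2 h) m r h
  | succ j ih =>
    intro σ hσ m r h
    obtain ⟨τ, hτ⟩ := hκ ((j + 1 : ℕ) : ZMod f)
    have h1 := ih τ hτ (p * m) r h
    have h2 := rel_mul Z τ σ p (fun r h1 h2 h => hE τ σ (by rw [hσ, hτ]; push_cast; ring) r h1 h2 h)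
      m r h
    rw [← h2, ← h1]
    congr 2
    ring

end Defs

end Pool.Agent.N28.BM
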