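import Pool.Agent.N28.BM.Ring

/-!
# The values of a solution of the difference equations are determined by a finite box
-/

open Finset

namespace Pool.Agent.N28.BM

/-- The set of the first `r` indices. -/
def top (n r : ℕ) : Finset (Fin (n + 1)) := univ.filter (fun i => i.val < r)

/-- The tuple `(n, n - 1, ..., 0)`. -/
def rho (n : ℕ) : Fin (n + 1) → ℤ := fun i => n - i.val

/-- Add `s` to the entries with index in `J`. -/
def ad {n : ℕ} (v : Fin (n + 1) → ℤ) (s : ℤ) (J : Finset (Fin (n + 1))) : Fin (n + 1) → ℤ :=
  fun i => v i + if i ∈ J then s else 0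

lemma sum_ad {n : ℕ} (v : Fin (n + 1) → ℤ) (s : ℤ) (J : Finset (Fin (n + 1))) :
    ∑ i, ad v s J i = ∑ i, v i + J.card * s := by
  simp [ad, Finset.sum_add_distrib]

lemma sum_sq_ad {n : ℕ} (v : Fin (n + 1) → ℤ) (s : ℤ) (J : Finset (Fin (n + 1))) :
    ∑ i, (ad v s J i) ^ 2 = ∑ i, (v i) ^ 2 + 2 * s * ∑ i ∈ J, v i + J.card * s ^ 2 := by
  have : ∀ i, (ad v s J i) ^ 2 = (v i) ^ 2 + (if i ∈ J then 2 * s * v i + s ^ 2 else 0) := by
    intro i
    by_cases h : i ∈ J
    · simp only [ad, h, if_true]; ring
    · simp only [ad, h, if_false]; ring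
  rw [Finset.sum_congr rfl fun i _ => this i, Finset.sum_add_distrib, Finset.sum_ite_mem,
    Finset.univ_inter, Finset.sum_add_distrib, Finset.mul_sum]
  simp
  ring

lemma card_top (n r : ℕ) (hr : r ≤ n + 1) : (top n r).card = r := by
  have : (top n r) = (univ : Finset (Fin (n + 1))).filter (fun i => i.val < r) := rfl
  rw [this, Fin.card_filter_val_lt]
  omega

lemma sum_lt_top {n : ℕ} (v : Fin (n + 1) → ℤ) (hv : StrictAnti v) (r : ℕ) (h1 : 1 ≤ r)
    (hr : r ≤ n) (J : Finset (Fin (n + 1))) (hJ : J.card = r) (hne : J ≠ top n r) :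
    ∑ i ∈ J, v i < ∑ i ∈ top n r, v i := by
  classical
  set T := top n r with hT
  have hcT : T.card = r := card_top n r (by omega)
  have e1 : ∑ i ∈ J, v i = ∑ i ∈ J \ T, v i + ∑ i ∈ J ∩ T, v i := by
    have := Finset.sum_inter_add_sum_sdiff J T v
    linarith
  have e2 : ∑ i ∈ T, v i = ∑ i ∈ T \ J, v i + ∑ i ∈ J ∩ T, v i := by
    have := Finset.sum_inter_add_sum_sdiff T J v
    rw [Finset.inter_comm] at this
    linarith
  have c1 : (J \ T).card = (T \ J).card := by
    have := Finset.card_sdiff_add_card_inter J T
    have h2 := Finset.card_sdiff_add_card_inter T J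
    rw [Finset.inter_comm] at h2
    omega
  have c2 : 0 < (T \ J).card := by
    rw [Finset.card_pos]
    by_contra hcon
    rw [Finset.not_nonempty_iff_eq_empty, Finset.sdiff_eq_empty_iff_subset] at hcon
    exact hne (Finset.eq_of_subset_of_card_le hcon (by omega)).symm
  set m := v ⟨r - 1, by omega⟩ with hm
  have b1 : ∑ i ∈ J \ T, v i ≤ ∑ i ∈ J \ T, (m - 1) := by
    refine Finset.sum_le_sum fun i hi => ?_
    rw [Finset.mem_sdiff] at hi
    have : ¬ i.val < r := by
      intro h
      exact hi.2 (by rw [hT, top, Finset.mem_filter]; exact ⟨Finset.mem_univ _, h⟩)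
    have : v i < m := hv (by rw [Fin.lt_def]; simp only; omega)
    omega
  have b2 : ∑ i ∈ T \ J, m ≤ ∑ i ∈ T \ J, v i := by
    refine Finset.sum_le_sum fun i hi => ?_
    rw [Finset.mem_sdiff] at hi
    have : i.val < r := by
      have := hi.1
      rw [hT, top, Finset.mem_filter] at this
      exact this.2
    exact hv.antitone (by rw [Fin.le_def]; simp only; omega)
  rw [Finset.sum_const, nsmul_eq_mul] at b1 b2
  rw [e1, e2, c1] at *
  have : ((T \ J).card : ℤ) * (m - 1) < ((T \ J).card : ℤ) * m := by
    have : (0 : ℤ) < (T \ J).card := by exact_mod_cast c2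
    nlinarith
  linarith

lemma exists_sort {n : ℕ} (v : Fin (n + 1) → ℤ) (hv : Function.Injective v) :
    ∃ π : Equiv.Perm (Fin (n + 1)), StrictAnti (v ∘ π) := by
  refine ⟨Fin.revPerm.trans (Tuple.sort v), ?_⟩
  have h1 : StrictMono (v ∘ Tuple.sort v) :=
    (Tuple.monotone_sort v).strictMono_of_injective (hv.comp (Equiv.injective _))
  intro a b hab
  have : (Fin.rev b) < Fin.rev a := Fin.rev_lt_rev.mpr hab
  exact h1 this

/-- The reduction principle. -/
lemma ind {n : ℕ} (s u : ℕ) (hs : 1 ≤ s) (hu1 : 1 ≤ u) (Pred : (Fin (n + 1) → ℤ) → Prop)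
    (h0 : ∀ v, ¬ Function.Injective v → Pred v)
    (hp : ∀ v (π : Equiv.Perm (Fin (n + 1))), Pred (v ∘ π) → Pred v)
    (hu : ∀ v, Pred v ↔ Pred (fun i => v i + u))
    (hd : ∀ v : Fin (n + 1) → ℤ, StrictAnti v → (∀ i, 0 ≤ v i) → ∀ r, 1 ≤ r → r ≤ n →
      (∀ J : Finset (Fin (n + 1)), J.card = r → J ≠ top n r → Pred (ad v s J)) →
      (∀ w : Fin (n + 1) → ℤ, (∀ i, 0 ≤ w i) → ∑ i, w i < ∑ i, v i + r * s → Pred w) →
      Pred (ad v s (top n r)))
    (hb : ∀ v : Fin (n + 1) → ℤ, StrictAnti v → (∀ i : Fin n, v i.castSucc - v i.succ ≤ s) →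
      0 ≤ v (Fin.last n) → v (Fin.last n) < u → Pred v) : ∀ v, Pred v := by
  have main : ∀ D : ℕ, ∀ Q : ℕ, ∀ v : Fin (n + 1) → ℤ, (∀ i, 0 ≤ v i) → ∑ i, v i = D →
      ∑ i, (v i) ^ 2 = Q → Pred v := by
    intro D
    induction D using Nat.strong_induction_on with
    | _ D ihD =>
    intro Q
    induction Q using Nat.strong_induction_on with
    | _ Q ihQ =>
    have ihD' : ∀ w : Fin (n + 1) → ℤ, (∀ i, 0 ≤ w i) → ∑ i, w i < D → Pred w := by
      intro w hw hlt
      have h1 : 0 ≤ ∑ i, w i := Finset.sum_nonneg fun i _ => hw i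
      have h2 : 0 ≤ ∑ i, (w i) ^ 2 := Finset.sum_nonneg fun i _ => sq_nonneg _
      exact ihD (∑ i, w i).toNat (by omega) (∑ i, (w i) ^ 2).toNat w hw
        (by rw [Int.toNat_of_nonneg h1]) (by rw [Int.toNat_of_nonneg h2])
    have ihQ' : ∀ w : Fin (n + 1) → ℤ, (∀ i, 0 ≤ w i) → ∑ i, w i = D → ∑ i, (w i) ^ 2 < Q →
        Pred w := by
      intro w hw hD hlt
      have h2 : 0 ≤ ∑ i, (w i) ^ 2 := Finset.sum_nonneg fun i _ => sq_nonneg _
      exact ihQ (∑ i, (w i) ^ 2).toNat (by omega) w hw hD (by rw [Int.toNat_of_nonneg h2])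
    -- sorted case
    have sorted : ∀ v : Fin (n + 1) → ℤ, StrictAnti v → (∀ i, 0 ≤ v i) → ∑ i, v i = D →
        ∑ i, (v i) ^ 2 = Q → Pred v := by
      intro v hv hnn hD hQ
      by_cases hlast : (u : ℤ) ≤ v (Fin.last n)
      · have h1 : Pred (fun i => v i - u) := by
          apply ihD'
          · intro i
            have : v (Fin.last n) ≤ v i := hv.antitone (Fin.le_last i)
            show 0 ≤ v i - u
            linarith
          · rw [Finset.sum_sub_distrib, hD]
            simp
            omega
        have h2 := (hu _).1 h1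
        simpa using h2
      · push Not at hlast
        by_cases hgap : ∃ i : Fin n, (s : ℤ) < v i.castSucc - v i.succ
        · obtain ⟨i, hi⟩ := hgap
          set r := i.val + 1 with hr
          set v' : Fin (n + 1) → ℤ := ad v (-s) (top n r) with hv'
          have hmem : ∀ j : Fin (n + 1), j ∈ top n r ↔ j.val < r := by
            intro j; simp [top]
          have hadd : ad v' s (top n r) = v := by
            funext j
            simp only [hv', ad]
            split_ifs <;> simp
          have hv'anti : StrictAnti v' := by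
            intro a b hab
            have hab' : a.val < b.val := hab
            have := hv hab
            simp only [hv', ad, hmem]
            by_cases ha : a.val < r
            · by_cases hb : b.val < r
              · rw [if_pos ha, if_pos hb]; linarith
              · rw [if_pos ha, if_neg hb]
                have h1 : v i.castSucc ≤ v a := hv.antitone (by rw [Fin.le_def]; simp; omega)
                have h2 : v b ≤ v i.succ := hv.antitone (by rw [Fin.le_def]; simp; omega)
                linarith
            · rw [if_neg ha, if_neg (by omega : ¬ b.val < r)]; linarith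
          have hv'nn : ∀ j, 0 ≤ v' j := by
            intro j
            simp only [hv', ad, hmem]
            by_cases hj : j.val < r
            · rw [if_pos hj]
              have h1 : v i.castSucc ≤ v j := hv.antitone (by rw [Fin.le_def]; simp; omega)
              have h2 := hnn i.succ
              linarith
            · rw [if_neg hj]; have := hnn j; linarith
          have hrn : r ≤ n := by have := i.2; omega
          have hsum : ∑ j, v' j + r * s = D := by
            have := sum_ad v' s (top n r)
            rw [hadd, hD, card_top n r (by omega)] at this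
            linarith
          have hsq := sum_sq_ad v' s (top n r)
          rw [hadd, hQ, card_top n r (by omega)] at hsq
          have := hd v' hv'anti hv'nn r (by omega) hrn ?_ ?_
          · rw [hadd] at this
            exact this
          · intro K hK hne
            apply ihQ'
            · intro j
              simp only [ad]
              have := hv'nn j
              split_ifs <;> [positivity; simpa using this]
            · rw [sum_ad, hK]
              linarith
            · have h1 := sum_sq_ad v' s K
              have h2 := sum_lt_top v' hv'anti r (by omega) hrn K hK hne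
              rw [hK] at h1
              have hs' : (0 : ℤ) < s := by exact_mod_cast hs
              nlinarith
          · intro w hw hlt
            exact ihD' w hw (by linarith)
        · push Not at hgap
          exact hb v hv hgap (hnn _) hlast
    intro v hnn hD hQ
    by_cases hinj : Function.Injective v
    · obtain ⟨π, hπ⟩ := exists_sort v hinj
      apply hp v π
      apply sorted _ hπ (fun i => hnn _)
      · rw [← hD]; exact Equiv.sum_comp π v
      · rw [← hQ]; exact Equiv.sum_comp π (fun i => (v i) ^ 2)
    · exact h0 v hinj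
  have nonneg : ∀ v : Fin (n + 1) → ℤ, (∀ i, 0 ≤ v i) → Pred v := by
    intro v hv
    have h1 : 0 ≤ ∑ i, v i := Finset.sum_nonneg fun i _ => hv i
    have h2 : 0 ≤ ∑ i, (v i) ^ 2 := Finset.sum_nonneg fun i _ => sq_nonneg _
    exact main (∑ i, v i).toNat (∑ i, (v i) ^ 2).toNat v hv
        (by rw [Int.toNat_of_nonneg h1]) (by rw [Int.toNat_of_nonneg h2])
  have desc : ∀ K : ℕ, ∀ v : Fin (n + 1) → ℤ, Pred (fun i => v i + K * u) → Pred v := by
    intro K
    induction K with
    | zero => intro v hv; simpa using hv
    | succ K ih =>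
      intro v hv
      apply ih
      rw [hu]
      convert hv using 2
      push_cast
      ring
  intro v
  apply desc (∑ i, |v i|).toNat
  apply nonneg
  intro i
  have h1 : |v i| ≤ ∑ i, |v i| := Finset.single_le_sum (f := fun i => |v i|)
    (fun j _ => abs_nonneg _) (Finset.mem_univ i)
  have h2 : 0 ≤ ∑ i, |v i| := Finset.sum_nonneg fun i _ => abs_nonneg _
  rw [Int.toNat_of_nonneg h2]
  have h3 : (1 : ℤ) ≤ u := by exact_mod_cast hu1
  have h4 := neg_abs_le (v i)
  nlinarith

end Pool.Agent.N28.BM
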