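import Pool.Agent.N28.BM.Dom

/-!
# The Breuil-Mezard conjecture and difference equations in the Hodge-Tate weights
-/

open Finset

namespace Pool.Agent.N28.BM

/-- The irreducible representations of `GL_d(k)` over `F` (Serre weights) with their Brauer
characters: `br w g` is the sum of the lifts `t y` of the eigenvalues `y` of `g` on the
representation `w`. The Brauer characters of the irreducible representations are linearly
independent. -/
structure SerreWeights (k F : Type) [Field k] [Field F] (d : ℕ) (t : Fˣ →* ℂˣ) where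
  /-- the index set -/
  W : Type
  /-- it is finite -/
  fin : Fintype W
  /-- the dimensions -/
  dim : W → ℕ
  /-- the representations -/
  rep : ∀ w, GL (Fin d) k →* GL (Fin (dim w)) F
  /-- the Brauer characters -/
  br : W → GL (Fin d) k → ℂ
  br_eq : ∀ w g (y : Fin (dim w) → Fˣ), IsEigen (RingHom.id F) (rep w g) y →
    br w g = ∑ i, ((t (y i) : ℂˣ) : ℂ)
  indep : LinearIndependent ℤ br

attribute [instance] SerreWeights.fin

section Thm

variable {k F : Type} [Field k] [Fintype k] [Field F] [IsAlgClosed F] (ι : k →+* F) {p f : ℕ}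
  [hp : Fact p.Prime] [CharP F p] (hk : Fintype.card k = p ^ f) (hf : f ≠ 0)
  {S : Type} [Fintype S] [DecidableEq S] {n : ℕ} (κ : S → ZMod f)
  (hκ : Function.Surjective κ) (t : Fˣ →* ℂˣ) (ht : Function.Injective t)
  (s : Wt S (n + 1) → P S (n + 1)) (hs : IsWeyl s)
  (D : SerreWeights k F (n + 1) t)

/-- `mult h w` is the multiplicity of the Serre weight `w` in the reduction modulo `p` of
`W_h ⊗ σ`: here `W_h` is the algebraic representation of highest weight `h - ρ` (whose Brauer
character at an element with eigenvalues `x` is the Weyl character `s h` at the lifts), and `θ` is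
the Brauer character of the reduction of the type `σ`. -/
def IsMult (θ : GL (Fin (n + 1)) k → ℂ) (mult : Wt S (n + 1) → D.W → ℕ) : Prop :=
  ∀ h, Dom h → ∀ (g : GL (Fin (n + 1)) k) (x : Fin (n + 1) → Fˣ), IsEigen ι g x →
    ∑ w, (mult h w : ℂ) * D.br w g = evx (pnt κ p t x) (s h) * θ g

open scoped Classical in
/-- The classes of the reductions of the `W_h` generate the Grothendieck group of the
representations of `GL_d(k)` (Steinberg). -/
def Generates (mult : Wt S (n + 1) → D.W → ℕ) : Prop :=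
  ∀ w, ∃ c : P S (n + 1), (∀ h ∈ c.coeff.support, Dom h) ∧
    ∀ w', ∑ h ∈ c.coeff.support, c.coeff h * (mult h w' : ℤ) = if w' = w then 1 else 0

omit [Fintype k] [CharP F p] hp in
lemma list_eigen (g : GL (Fin (n + 1)) k) : ∃ x : Fin (n + 1) → Fˣ, IsEigen ι g x := by
  classical
  set Q := (g : Matrix (Fin (n + 1)) (Fin (n + 1)) k).charpoly with hQ
  have hm : Q.Monic := Matrix.charpoly_monic _
  have hdeg : Q.natDegree = n + 1 := by
    rw [hQ, Matrix.charpoly_natDegree_eq_dim, Fintype.card_fin]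
  have hsplit := IsAlgClosed.splits (Q.map ι)
  have hm' : (Q.map ι).Monic := hm.map ι
  have hprod := hsplit.eq_prod_roots_of_monic hm'
  have hcard : Multiset.card (Q.map ι).roots = n + 1 := by
    rw [← hsplit.natDegree_eq_card_roots, Polynomial.natDegree_map, hdeg]
  obtain ⟨z, hz⟩ : ∃ z : Fin (n + 1) → F, univ.val.map z = (Q.map ι).roots := by
    refine ⟨fun i => ((Q.map ι).roots.toList).get (i.cast (by
      rw [Multiset.length_toList, hcard])), ?_⟩
    rw [Fin.univ_val_map]
    conv_rhs => rw [← Multiset.coe_toList (Q.map ι).roots]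
    congr 1
    apply List.ext_get
    · rw [List.length_ofFn, Multiset.length_toList, hcard]
    · intro i h1 h2
      rw [List.get_ofFn]
      rfl
  have hz2 : Q.map ι = ∏ i, (Polynomial.X - Polynomial.C (z i)) := by
    rw [hprod, ← hz, Multiset.map_map]
    rfl
  have hz0 : ∀ i, z i ≠ 0 := by
    intro i hi
    have h1 : (Q.map ι).eval 0 = 0 := by
      rw [hz2, Polynomial.eval_prod]
      apply Finset.prod_eq_zero (Finset.mem_univ i)
      simp [hi]
    rw [← Polynomial.coeff_zero_eq_eval_zero, Polynomial.coeff_map, map_eq_zero] at h1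
    have h2 := Matrix.det_eq_sign_charpoly_coeff (g : Matrix (Fin (n + 1)) (Fin (n + 1)) k)
    rw [← hQ, h1, mul_zero] at h2
    have h3 : IsUnit ((g : Matrix (Fin (n + 1)) (Fin (n + 1)) k).det) :=
      Matrix.isUnits_det_units g
    rw [h2] at h3
    exact not_isUnit_zero h3
  refine ⟨fun i => Units.mk0 (z i) (hz0 i), ?_⟩
  unfold IsEigen
  rw [← hQ, hz2]
  rfl

lemma LF_single_mul_sub {M : Type*} [AddCommGroup M] (Y : Wt S (n + 1) → M) (h : Wt S (n + 1))
    (σ σ' : S) (p r : ℕ) : LF Y (AddMonoidAlgebra.single h 1 *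
    (th σ p (MvPolynomial.esymm (Fin (n + 1)) ℤ r) -
      th σ' 1 (MvPolynomial.esymm (Fin (n + 1)) ℤ r))) = shift Y h σ p r - shift Y h σ' 1 r := by
  rw [mul_sub, map_sub, LF_mul_esymm, LF_mul_esymm]
  simp

lemma LF_comb {M : Type*} [AddCommGroup M] (X : Wt S (n + 1) → M) (h : Wt S (n + 1))
    {B : Type*} [Fintype B] (m : B → ℤ) (y : B → Wt S (n + 1)) :
    LF X (AddMonoidAlgebra.single h 1 - ∑ b, m b • AddMonoidAlgebra.single (y b) 1) =
      X h - ∑ b, m b • X (y b) := by
  rw [map_sub, LF_single, one_smul, map_sum]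
  simp only [map_zsmul, LF_single, one_smul]

omit [Fintype k] [IsAlgClosed F] [CharP F p] hp in
lemma LF_mult {M : Type*} [AddCommGroup M] (mult : Wt S (n + 1) → D.W → ℕ)
    (Z : Wt S (n + 1) → M) (z : D.W → M) (hz : ∀ h, Dom h → Z h = ∑ w, mult h w • z w)
    (b : P S (n + 1)) (hb : ∀ h ∈ b.coeff.support, Dom h) :
    LF Z b = ∑ w, (LF (fun h => (mult h w : ℤ)) b) • z w := by
  simp only [LF_eq_sum, Finset.sum_smul]
  rw [Finset.sum_comm]
  refine Finset.sum_congr rfl fun h hh => ?_
  rw [hz h (hb h hh), Finset.smul_sum]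
  refine Finset.sum_congr rfl fun w _ => ?_
  rw [smul_eq_mul, mul_smul, natCast_zsmul]

omit [Fintype k] [IsAlgClosed F] [CharP F p] hp in
lemma ev_mult (θ : GL (Fin (n + 1)) k → ℂ) (mult : Wt S (n + 1) → D.W → ℕ)
    (hmult : IsMult ι (p := p) κ t s D θ mult) (b : P S (n + 1))
    (hb : ∀ h ∈ b.coeff.support, Dom h) (g : GL (Fin (n + 1)) k) (x : Fin (n + 1) → Fˣ)
    (hx : IsEigen ι g x) :
    evx (pnt κ p t x) (LF s b) * θ g =
      ∑ w, ((LF (fun h => (mult h w : ℤ)) b : ℤ) : ℂ) * D.br w g := by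
  simp only [LF_eq_sum, map_sum, Finset.sum_mul, Int.cast_sum]
  rw [Finset.sum_comm]
  refine Finset.sum_congr rfl fun h hh => ?_
  rw [map_zsmul, smul_mul_assoc, ← hmult h (hb h hh) g x hx, Finset.smul_sum]
  refine Finset.sum_congr rfl fun w _ => ?_
  rw [zsmul_eq_mul, smul_eq_mul]
  push_cast
  ring

omit [Fintype k] [CharP F p] hp in
lemma mult_zero (θ : GL (Fin (n + 1)) k → ℂ) (mult : Wt S (n + 1) → D.W → ℕ)
    (hmult : IsMult ι (p := p) κ t s D θ mult) (b : P S (n + 1))
    (hb : ∀ h ∈ b.coeff.support, Dom h)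
    (hev : ∀ (g : GL (Fin (n + 1)) k) (x : Fin (n + 1) → Fˣ), IsEigen ι g x →
      evx (pnt κ p t x) (LF s b) = 0) (w : D.W) : LF (fun h => (mult h w : ℤ)) b = 0 := by
  have h1 : ∑ w, (LF (fun h => (mult h w : ℤ)) b) • D.br w = 0 := by
    funext g
    obtain ⟨x, hx⟩ := list_eigen ι g
    have h2 := ev_mult ι κ t s D θ mult hmult b hb g x hx
    rw [hev g x hx, zero_mul] at h2
    rw [Finset.sum_apply, Pi.zero_apply, h2]
    refine Finset.sum_congr rfl fun w _ => ?_
    rw [Pi.smul_apply, zsmul_eq_mul]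
  exact Fintype.linearIndependent_iff.mp D.indep _ h1 w

include hk hf hs in
/-- The conjecture for one type implies the difference equations. -/
lemma equations_of_bm {M : Type*} [AddCommGroup M] (θ : GL (Fin (n + 1)) k → ℂ)
    (mult : Wt S (n + 1) → D.W → ℕ) (hmult : IsMult ι (p := p) κ t s D θ mult)
    (Z : Wt S (n + 1) → M) (hZ : Alt Z) (z : D.W → M)
    (hz : ∀ h, Dom h → Z h = ∑ w, mult h w • z w) : Equations κ p Z := by
  intro σ σ' hσ r h1 h2 h
  set a : P S (n + 1) := AddMonoidAlgebra.single h 1 *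
    (th σ p (MvPolynomial.esymm (Fin (n + 1)) ℤ r) -
      th σ' 1 (MvPolynomial.esymm (Fin (n + 1)) ℤ r)) with ha
  have hev : ∀ (g : GL (Fin (n + 1)) k) (x : Fin (n + 1) → Fˣ), IsEigen ι g x →
      evx (pnt κ p t x) (LF s (NF a)) = 0 := by
    intro g x hx
    rw [LF_NF s (weyl_alt s hs)]
    have h3 := LF_comp ((evx (pnt κ p t x) : P S (n + 1) →ₐ[ℤ] ℂ) : P S (n + 1) →+ ℂ) s a
    have h4 := eqn_weyl ι hk κ hf t s hs g x hx σ σ' hσ r h1 h2 h
    have h5 := LF_single_mul_sub (fun h => evx (pnt κ p t x) (s h)) h σ σ' p r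
    rw [← ha] at h5
    rw [h4, sub_self] at h5
    exact h3.trans h5
  have h6 := LF_mult t D mult Z z hz (NF a) (NF_dom a)
  rw [LF_NF Z hZ, ha, LF_single_mul_sub] at h6
  rw [← sub_eq_zero, h6]
  refine Finset.sum_eq_zero fun w _ => ?_
  rw [mult_zero ι κ t s D θ mult hmult (NF a) (NF_dom a) hev w, zero_smul]

/-- The difference equations at regular Hodge types: for embeddings `σ`, `σ'` such that the residue
embedding of `σ'` is the Frobenius conjugate of that of `σ`, and `1 ≤ r ≤ d`, the sum of `Z` over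
the ways to add `p` to `r` of the weights at `σ` equals the sum over the ways to add `1` to `r` of
the weights at `σ'`. -/
def DomEquations {M : Type*} [AddCommGroup M] (p : ℕ) (Z : Wt S (n + 1) → M) : Prop :=
  ∀ h, Dom h → ∀ σ σ', κ σ' = κ σ + 1 → ∀ r, 1 ≤ r → r ≤ n + 1 →
    shift Z h σ p r = shift Z h σ' 1 r

include hk hf hκ ht hs in
/-- **The crystalline case.** -/
theorem crystalline {M : Type*} [AddCommGroup M] (mult : Wt S (n + 1) → D.W → ℕ)
    (hmult : IsMult ι (p := p) κ t s D (fun _ => 1) mult) (hgen : Generates t D mult)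
    (Z : Wt S (n + 1) → M) (hZ : Alt Z) :
    ((∃ z : D.W → M, ∀ h, Dom h → Z h = ∑ w, mult h w • z w) ↔ DomEquations κ p Z) ∧
    ∀ z z' : D.W → M, (∀ h, Dom h → Z h = ∑ w, mult h w • z w) →
      (∀ h, Dom h → Z h = ∑ w, mult h w • z' w) → z = z' := by
  classical
  choose c hc1 hc2 using hgen
  have hc3 : ∀ w w', LF (fun h => (mult h w' : ℤ)) (c w) = if w' = w then 1 else 0 := by
    intro w w'
    rw [← hc2 w w', LF_eq_sum]
    rfl
  refine ⟨⟨?_, ?_⟩, ?_⟩
  · rintro ⟨z, hz⟩ h hh σ σ' hσ r h1 h2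
    exact equations_of_bm ι hk hf κ t s hs D _ mult hmult Z hZ z hz σ σ' hσ r h1 h2 h
  · intro hE
    have hE' := equations_of_dom κ p Z hZ hE
    refine ⟨fun w => LF Z (c w), ?_⟩
    intro h hh
    set b : P S (n + 1) := AddMonoidAlgebra.single h 1 - ∑ w, mult h w • c w with hb
    have hbdom : ∀ w ∈ b.coeff.support, Dom w := by
      intro v hv
      by_contra hcon
      rw [Finsupp.mem_support_iff] at hv
      apply hv
      rw [hb, AddMonoidAlgebra.coeff_sub, AddMonoidAlgebra.coeff_sum, Finsupp.sub_apply,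
        Finsupp.finsetSum_apply]
      have h1 : (AddMonoidAlgebra.single h (1 : ℤ) : P S (n + 1)).coeff v = 0 := by
        rw [AddMonoidAlgebra.coeff_single, Finsupp.single_apply, if_neg]
        rintro rfl
        exact hcon hh
      rw [h1, Finset.sum_eq_zero, sub_zero]
      intro w _
      rw [AddMonoidAlgebra.coeff_smul, Finsupp.smul_apply]
      have : (c w).coeff v = 0 := by
        by_contra h2
        exact hcon (hc1 w v (Finsupp.mem_support_iff.mpr h2))
      rw [this, smul_zero]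
    have hmb : ∀ w', LF (fun h => (mult h w' : ℤ)) b = 0 := by
      intro w'
      rw [hb, map_sub, LF_single, one_smul, map_sum]
      simp only [map_nsmul, hc3]
      simp
    have hev : ∀ (g : GL (Fin (n + 1)) k) (x : Fin (n + 1) → Fˣ), IsEigen ι g x →
        evx (pnt κ p t x) (LF s b) = 0 := by
      intro g x hx
      have h3 := ev_mult ι κ t s D _ mult hmult b hbdom g x hx
      rw [mul_one] at h3
      rw [h3]
      refine Finset.sum_eq_zero fun w _ => ?_
      rw [hmb, Int.cast_zero, zero_mul]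
    have h4 := core ι hk hf κ hκ t ht s hs Z hZ hE' b hev
    rw [hb, map_sub, LF_single, one_smul, map_sum, sub_eq_zero] at h4
    rw [h4]
    refine Finset.sum_congr rfl fun w _ => ?_
    rw [map_nsmul]
  · intro z z' hz hz'
    have h1 : ∀ z : D.W → M, (∀ h, Dom h → Z h = ∑ w, mult h w • z w) →
        ∀ w, LF Z (c w) = z w := by
      intro z hz w
      rw [LF_mult t D mult Z z hz (c w) (hc1 w)]
      simp only [hc3]
      simp
    funext w
    rw [← h1 z hz w, h1 z' hz' w]

/-- The finite box of Hodge types: the Hodge-Tate weights at the embeddings `σ ≠ σ₀` are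
`n, n - 1, ..., 0`, those at `σ₀` are strictly decreasing with differences at most `q`, and the
last one is between `0` and `q - 2`. -/
def InBox (σ₀ : S) (q : ℕ) (h : Wt S (n + 1)) : Prop :=
  Dom h ∧ (∀ σ, σ ≠ σ₀ → ∀ i, h σ i = n - i.val) ∧
    (∀ i : Fin n, h σ₀ i.castSucc - h σ₀ i.succ ≤ q) ∧
    0 ≤ h σ₀ (Fin.last n) ∧ h σ₀ (Fin.last n) + 2 ≤ q

omit [Fintype S] in
lemma inBox_boxW (σ₀ : S) (q : ℕ) (b : (Fin n → Fin q) × Fin (q - 1)) :
    InBox σ₀ q (boxW σ₀ b : Wt S (n + 1)) := by
  have e1 : (boxW σ₀ b : Wt S (n + 1)) σ₀ = bx b.1 b.2 := by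
    unfold boxW; rw [Function.update_self]
  have e2 : ∀ σ, σ ≠ σ₀ → (boxW σ₀ b : Wt S (n + 1)) σ = rho n := by
    intro σ hσ; unfold boxW; rw [Function.update_of_ne hσ]
  refine ⟨?_, ?_, ?_, ?_, ?_⟩
  · intro σ
    by_cases hσ : σ = σ₀
    · subst hσ
      rw [e1, Fin.strictAnti_iff_succ_lt]
      intro i
      rw [bx_cast]
      have := (b.1 i).2
      omega
    · rw [e2 σ hσ]
      intro i j hij
      have : i.val < j.val := hij
      simp only [rho]
      omega
  · intro σ hσ i
    rw [e2 σ hσ]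
    rfl
  · intro i
    rw [e1, bx_cast]
    have := (b.1 i).2
    omega
  · rw [e1, bx_last]
    omega
  · rw [e1, bx_last]
    have := b.2.2
    omega

include hk hf hκ ht hs in
/-- **The case with types.** -/
theorem types {M : Type*} [AddCommGroup M] {T : Type*} (θ : T → GL (Fin (n + 1)) k → ℂ)
    (mult : T → Wt S (n + 1) → D.W → ℕ)
    (hmult : ∀ τ, IsMult ι (p := p) κ t s D (θ τ) (mult τ))
    (Z : T → Wt S (n + 1) → M) (hZ : ∀ τ, Alt (Z τ)) (σ₀ : S) (h0 : κ σ₀ = 0) (z : D.W → M) :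
    (∀ τ h, Dom h → Z τ h = ∑ w, mult τ h w • z w) ↔
      (∀ τ, DomEquations κ p (Z τ)) ∧
      ∀ τ h, InBox σ₀ (p ^ f) h → Z τ h = ∑ w, mult τ h w • z w := by
  classical
  constructor
  · intro hz
    refine ⟨fun τ h hh σ σ' hσ r h1 h2 => ?_, fun τ h hh => hz τ h hh.1⟩
    exact equations_of_bm ι hk hf κ t s hs D _ (mult τ) (hmult τ) (Z τ) (hZ τ) z (hz τ)
      σ σ' hσ r h1 h2 h
  · rintro ⟨hE, hbox⟩ τ h hh
    have hE' := equations_of_dom κ p (Z τ) (hZ τ) (hE τ)
    have hA := weyl_alt s hs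
    set Y : Wt S (n + 1) → ({e : GL (Fin (n + 1)) k × (Fin (n + 1) → Fˣ) //
        IsEigen ι e.1 e.2} → ℂ) := fun h e => evx (pnt κ p t e.1.2) (s h) with hY
    have hYalt : Alt Y := by
      constructor
      · intro h σ π
        funext c
        simp only [hY, hA.perm h σ π, map_zsmul, Pi.smul_apply]
      · intro h σ i j hij he
        funext c
        simp only [hY, hA.zero h σ i j hij he, map_zero, Pi.zero_apply]
    have hYE : Equations κ p Y := by
      intro σ σ' hσ r h1 h2 h
      funext c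
      have := eqn_weyl ι hk κ hf t s hs c.1.1 c.1.2 c.2 σ σ' hσ r h1 h2 h
      simp only [shift, Finset.sum_apply] at this ⊢
      exact this
    set U : Submodule ℤ ({e : GL (Fin (n + 1)) k × (Fin (n + 1) → Fˣ) //
        IsEigen ι e.1 e.2} → ℂ) := Submodule.span ℤ (Set.range
        fun b : (Fin n → Fin (p ^ f)) × Fin (p ^ f - 1) => Y (boxW σ₀ b)) with hU
    have hmem : Y h ∈ U.toAddSubgroup :=
      box_span κ hκ hf p hp.out.two_le Y hYalt hYE σ₀ h0 U.toAddSubgroup
        (fun b => Submodule.subset_span ⟨b, rfl⟩) h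
    have hmem' : Y h ∈ U := hmem
    rw [hU, Submodule.mem_span_range_iff_exists_fun] at hmem'
    obtain ⟨m, hm⟩ := hmem'
    set a : P S (n + 1) := AddMonoidAlgebra.single h 1 -
      ∑ b, m b • AddMonoidAlgebra.single (boxW σ₀ b) 1 with ha
    have hadom : ∀ w ∈ a.coeff.support, Dom w := by
      intro v hv
      by_contra hcon
      rw [Finsupp.mem_support_iff] at hv
      apply hv
      rw [ha, AddMonoidAlgebra.coeff_sub, AddMonoidAlgebra.coeff_sum, Finsupp.sub_apply,
        Finsupp.finsetSum_apply]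
      have h1 : ∀ h' : Wt S (n + 1), Dom h' →
          (AddMonoidAlgebra.single h' (1 : ℤ) : P S (n + 1)).coeff v = 0 := by
        intro h' hh'
        rw [AddMonoidAlgebra.coeff_single, Finsupp.single_apply, if_neg]
        rintro rfl
        exact hcon hh'
      rw [h1 h hh, Finset.sum_eq_zero, sub_zero]
      intro b _
      rw [AddMonoidAlgebra.coeff_smul, Finsupp.smul_apply, h1 _ (inBox_boxW σ₀ _ b).1, smul_zero]
    have hev : ∀ (g : GL (Fin (n + 1)) k) (x : Fin (n + 1) → Fˣ), IsEigen ι g x →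
        evx (pnt κ p t x) (LF s a) = 0 := by
      intro g x hx
      have h3 := LF_comp ((evx (pnt κ p t x) : P S (n + 1) →ₐ[ℤ] ℂ) : P S (n + 1) →+ ℂ) s a
      have h5 := LF_comb (fun h => evx (pnt κ p t x) (s h)) h m (boxW σ₀)
      rw [← ha] at h5
      have h6 := congrFun hm ⟨(g, x), hx⟩
      rw [Finset.sum_apply] at h6
      have h7 : ∑ b, m b • evx (pnt κ p t x) (s (boxW σ₀ b)) = evx (pnt κ p t x) (s h) := h6
      rw [h7, sub_self] at h5
      exact h3.trans h5
    have h4 := core ι hk hf κ hκ t ht s hs (Z τ) (hZ τ) hE' a hev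
    rw [ha, LF_comb, sub_eq_zero] at h4
    have h5 : ∀ w, (mult τ h w : ℤ) = ∑ b, m b * (mult τ (boxW σ₀ b) w : ℤ) := by
      intro w
      have h6 := mult_zero ι κ t s D (θ τ) (mult τ) (hmult τ) a hadom hev w
      rw [ha, LF_comb, sub_eq_zero] at h6
      simpa using h6
    rw [h4]
    have h6 : ∀ b, Z τ (boxW σ₀ b) = ∑ w, mult τ (boxW σ₀ b) w • z w :=
      fun b => hbox τ _ (inBox_boxW σ₀ _ b)
    simp only [h6, Finset.smul_sum]
    rw [Finset.sum_comm]
    refine Finset.sum_congr rfl fun w _ => ?_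
    rw [← natCast_zsmul, h5 w, Finset.sum_smul]
    refine Finset.sum_congr rfl fun b _ => ?_
    rw [mul_smul, natCast_zsmul]

end Thm

end Pool.Agent.N28.BM
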