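import Pool.Agent.N28.BM.Box

/-!
# Weyl characters
-/

open Finset

namespace Pool.Agent.N28.BM

variable {S : Type} [Fintype S] [DecidableEq S] {n : ℕ}

/-- Permutation of the entries at all embeddings. -/
def actE {d : ℕ} (π : S → Equiv.Perm (Fin d)) : Wt S d ≃+ Wt S d where
  toFun h := fun σ i => h σ (π σ i)
  invFun h := fun σ i => h σ ((π σ).symm i)
  left_inv h := by funext σ i; simp
  right_inv h := by funext σ i; simp
  map_add' _ _ := rfl

/-- The sign of a family of permutations. -/
def sgnW {d : ℕ} (π : S → Equiv.Perm (Fin d)) : ℤ := ∏ σ, (Equiv.Perm.sign (π σ) : ℤ)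

/-- The alternating sum of the monomials in the orbit of `h`. -/
noncomputable def altE {d : ℕ} (h : Wt S d) : P S d :=
  ∑ π : S → Equiv.Perm (Fin d), sgnW π • AddMonoidAlgebra.single (actE π h) (1 : ℤ)

/-- `s` is the family of the Weyl characters `s_h = altE h / altE ρ`, as Laurent polynomials. -/
def IsWeyl (s : Wt S (n + 1) → P S (n + 1)) : Prop :=
  ∀ h, s h * altE (fun _ => rho n) = altE h

/-- The ring automorphism of the group ring given by `actE π`. -/
noncomputable def dc {d : ℕ} (π : S → Equiv.Perm (Fin d)) : P S d ≃ₐ[ℤ] P S d :=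
  AddMonoidAlgebra.domCongr ℤ ℤ (actE π)

lemma dc_single {d : ℕ} (π : S → Equiv.Perm (Fin d)) (h : Wt S d) (m : ℤ) :
    dc π (AddMonoidAlgebra.single h m) = AddMonoidAlgebra.single (actE π h) m := by
  unfold dc
  exact AddMonoidAlgebra.domCongr_single ..

/-- The antisymmetrizer. -/
noncomputable def AA {d : ℕ} : P S d →+ P S d where
  toFun c := ∑ π : S → Equiv.Perm (Fin d), sgnW π • dc π c
  map_zero' := by simp
  map_add' a b := by simp [Finset.sum_add_distrib]

lemma AA_single {d : ℕ} (h : Wt S d) : AA (AddMonoidAlgebra.single h 1 : P S d) = altE h := by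
  simp only [AA, AddMonoidHom.coe_mk, ZeroHom.coe_mk, altE, dc_single]

lemma AA_mul {d : ℕ} (c F : P S d) (hF : ∀ π, dc π F = F) : AA (c * F) = AA c * F := by
  simp only [AA, AddMonoidHom.coe_mk, ZeroHom.coe_mk, Finset.sum_mul]
  refine Finset.sum_congr rfl fun π _ => ?_
  rw [map_mul, hF, smul_mul_assoc]

lemma LF_AA (s : Wt S (n + 1) → P S (n + 1)) (hs : IsWeyl s) (c : P S (n + 1)) :
    LF s c * altE (fun _ => rho n) = AA c := by
  induction c using AddMonoidAlgebra.induction_linear with
  | zero => simp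
  | add x y hx hy => rw [map_add, add_mul, hx, hy, map_add]
  | single h m =>
    have : (AddMonoidAlgebra.single h m : P S (n + 1)) = m • AddMonoidAlgebra.single h 1 := by simp
    rw [LF_single, smul_mul_assoc, hs h, this, map_zsmul, AA_single]

lemma actE_rho (π : S → Equiv.Perm (Fin (n + 1)))
    (h : actE π (fun _ => rho n) = fun _ => rho n) : π = 1 := by
  funext σ
  ext i
  have := congrFun (congrFun h σ) i
  simp only [actE, AddEquiv.coe_mk, Equiv.coe_fn_mk, rho] at this
  have h2 : ((π σ i).val : ℤ) = i.val := by linarith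
  have h3 : (π σ i).val = i.val := by exact_mod_cast h2
  simpa using h3

lemma altE_rho_ne : altE (S := S) (fun _ => rho n) ≠ 0 := by
  intro h
  have h1 : (altE (S := S) (fun _ => rho n)).coeff (fun _ => rho n) = 1 := by
    unfold altE
    rw [AddMonoidAlgebra.coeff_sum, Finsupp.finsetSum_apply]
    rw [Finset.sum_eq_single 1]
    · have : actE (1 : S → Equiv.Perm (Fin (n + 1))) (fun _ => rho n) = fun _ => rho n := rfl
      rw [this]
      simp [sgnW]
    · intro π _ hπ
      have : actE π (fun _ => rho n) ≠ fun _ => rho n := fun hc => hπ (actE_rho π hc)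
      simp [Finsupp.single_apply, this]
    · simp
  rw [h] at h1
  simp at h1

lemma cancel {a b : P S (n + 1)} (h : a * altE (fun _ => rho n) = b * altE (fun _ => rho n)) :
    a = b := mul_right_cancel₀ altE_rho_ne h

lemma LF_mul (s : Wt S (n + 1) → P S (n + 1)) (hs : IsWeyl s) (h : Wt S (n + 1))
    (F : P S (n + 1)) (hF : ∀ π, dc π F = F) :
    LF s (AddMonoidAlgebra.single h 1 * F) = s h * F := by
  apply cancel
  rw [LF_AA s hs, AA_mul _ _ hF, AA_single, mul_assoc, mul_comm F, ← mul_assoc, hs h]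

lemma s_rho (s : Wt S (n + 1) → P S (n + 1)) (hs : IsWeyl s) : s (fun _ => rho n) = 1 := by
  apply cancel
  rw [hs, one_mul]

lemma altE_pw {d : ℕ} (h : Wt S d) (σ : S) (ω : Equiv.Perm (Fin d)) :
    altE (pw h σ ω) = (Equiv.Perm.sign ω : ℤ) • altE h := by
  set ψ : (S → Equiv.Perm (Fin d)) ≃ (S → Equiv.Perm (Fin d)) :=
    { toFun := fun π => Function.update π σ (ω * π σ)
      invFun := fun π => Function.update π σ (ω⁻¹ * π σ)
      left_inv := by
        intro π
        funext τ
        by_cases hτ : τ = σ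
        · subst hτ; simp
        · simp [Function.update_of_ne hτ]
      right_inv := by
        intro π
        funext τ
        by_cases hτ : τ = σ
        · subst hτ; simp
        · simp [Function.update_of_ne hτ] } with hψ
  have h1 : ∀ π, actE π (pw h σ ω) = actE (ψ π) h := by
    intro π
    funext τ i
    by_cases hτ : τ = σ
    · subst hτ
      simp [actE, pw, hψ]
    · simp [actE, pw, hψ, Function.update_of_ne hτ]
  have h2 : ∀ π, sgnW (ψ π) = (Equiv.Perm.sign ω : ℤ) * sgnW π := by
    intro π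
    unfold sgnW
    rw [← Finset.mul_prod_erase _ _ (Finset.mem_univ σ), ← Finset.mul_prod_erase univ
      (fun σ => ((Equiv.Perm.sign (π σ) : ℤˣ) : ℤ)) (Finset.mem_univ σ), ← mul_assoc]
    congr 1
    · simp [hψ]
    · refine Finset.prod_congr rfl fun τ hτ => ?_
      rw [Finset.mem_erase] at hτ
      simp [hψ, Function.update_of_ne hτ.1]
  have h3 : ((Equiv.Perm.sign ω : ℤˣ) : ℤ) * (Equiv.Perm.sign ω : ℤˣ) = 1 := by
    rcases Int.units_eq_one_or (Equiv.Perm.sign ω) with h | h <;> simp [h]
  unfold altE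
  rw [Finset.smul_sum, ← Equiv.sum_comp ψ (fun π => ((Equiv.Perm.sign ω : ℤˣ) : ℤ) • sgnW π •
    (AddMonoidAlgebra.single (actE π h) (1 : ℤ) : P S d))]
  refine Finset.sum_congr rfl fun π _ => ?_
  rw [h1, h2, smul_smul, ← mul_assoc, h3, one_mul]

lemma altE_zero {d : ℕ} (h : Wt S d) (σ : S) (i j : Fin d) (hij : i ≠ j) (he : h σ i = h σ j) :
    altE h = 0 := by
  have h1 : pw h σ (Equiv.swap i j) = h := by
    unfold pw
    rw [Function.update_eq_self_iff]
    funext a
    simp only [Function.comp_apply]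
    by_cases ha : a = i
    · subst ha; rw [Equiv.swap_apply_left, he]
    · by_cases hb : a = j
      · subst hb; rw [Equiv.swap_apply_right, he]
      · rw [Equiv.swap_apply_of_ne_of_ne ha hb]
  have h2 := altE_pw h σ (Equiv.swap i j)
  rw [h1, Equiv.Perm.sign_swap hij] at h2
  simp only [Units.val_neg, Units.val_one, neg_smul, one_smul] at h2
  ext w
  have h3 : (altE h).coeff w = (-(altE h)).coeff w := by rw [← h2]
  rw [AddMonoidAlgebra.coeff_neg, Finsupp.neg_apply] at h3
  rw [AddMonoidAlgebra.coeff_zero, Finsupp.zero_apply]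
  omega

lemma weyl_alt (s : Wt S (n + 1) → P S (n + 1)) (hs : IsWeyl s) : Alt s where
  perm := by
    intro h σ π
    apply cancel
    rw [hs, altE_pw, smul_mul_assoc, hs]
  zero := by
    intro h σ i j hij he
    apply cancel
    rw [hs, altE_zero h σ i j hij he, zero_mul]

lemma actE_un {d : ℕ} (π : S → Equiv.Perm (Fin d)) (σ : S) (m : ℕ) (i : Fin d) :
    actE π (m • un σ i) = m • un σ ((π σ).symm i) := by
  funext τ j
  simp only [actE, AddEquiv.coe_mk, Equiv.coe_fn_mk, Pi.smul_apply, un]
  by_cases hτ : τ = σ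
  · subst hτ
    simp only [Pi.single_eq_same, Pi.single_apply]
    have : j = (π τ).symm i ↔ π τ j = i := Equiv.eq_symm_apply _
    simp only [this]
  · simp [Pi.single_eq_of_ne hτ]

/-- Symmetric polynomials in one block are invariant. -/
lemma dc_th {d : ℕ} (π : S → Equiv.Perm (Fin d)) (σ : S) (m : ℕ) (F : MvPolynomial (Fin d) ℤ)
    (hF : F.IsSymmetric) : dc π (th σ m F) = th σ m F := by
  have h1 : ((dc π : P S d →ₐ[ℤ] P S d).comp (th σ m)) =
      (th σ m).comp (MvPolynomial.rename (π σ).symm) := by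
    apply MvPolynomial.algHom_ext
    intro i
    simp only [AlgHom.comp_apply, th, MvPolynomial.aeval_X, MvPolynomial.rename_X]
    rw [← actE_un]
    exact dc_single _ _ _
  have h2 := DFunLike.congr_fun h1 F
  simp only [AlgHom.comp_apply] at h2
  rw [hF] at h2
  exact h2

/-- Evaluation of Laurent polynomials at a point. -/
noncomputable def evx {d : ℕ} (y : S → Fin d → ℂˣ) : P S d →ₐ[ℤ] ℂ :=
  AddMonoidAlgebra.lift ℤ ℂ (Wt S d)
    { toFun := fun h => ((∏ σ, ∏ i, (y σ i) ^ (Multiplicative.toAdd h σ i) : ℂˣ) : ℂ)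
      map_one' := by simp
      map_mul' := by
        intro a b
        simp only [toAdd_mul, Pi.add_apply, zpow_add, Finset.prod_mul_distrib, Units.val_mul] }

lemma evx_th {d : ℕ} (y : S → Fin d → ℂˣ) (σ : S) (m : ℕ) (F : MvPolynomial (Fin d) ℤ) :
    evx y (th σ m F) = MvPolynomial.aeval (fun i => ((y σ i : ℂˣ) : ℂ) ^ m) F := by
  have : (evx y).comp (th σ m) = MvPolynomial.aeval (fun i => ((y σ i : ℂˣ) : ℂ) ^ m) := by
    apply MvPolynomial.algHom_ext
    intro i
    simp only [AlgHom.comp_apply, th, MvPolynomial.aeval_X, evx, AddMonoidAlgebra.lift_single,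
      one_smul, MonoidHom.coe_mk, OneHom.coe_mk, toAdd_ofAdd]
    rw [Finset.prod_eq_single σ, Finset.prod_eq_single i]
    · simp [un]
    · intro j _ hj
      simp [un, Pi.single_eq_of_ne hj]
    · simp
    · intro τ _ hτ
      refine Finset.prod_eq_one fun j _ => ?_
      simp [un, Pi.single_eq_of_ne hτ]
    · simp
  exact DFunLike.congr_fun this F

/-- The values of the Weyl characters at points satisfy the difference equations, if the `p`-th
powers of the coordinates at `σ` are the coordinates at `σ'` up to order. -/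
lemma shift_weyl (s : Wt S (n + 1) → P S (n + 1)) (hs : IsWeyl s) (y : S → Fin (n + 1) → ℂˣ)
    (σ σ' : S) (a b : ℕ)
    (hy : (univ : Finset (Fin (n + 1))).val.map (fun i => ((y σ i : ℂˣ) : ℂ) ^ a) =
      (univ : Finset (Fin (n + 1))).val.map (fun i => ((y σ' i : ℂˣ) : ℂ) ^ b))
    (r : ℕ) (h : Wt S (n + 1)) :
    shift (fun h => evx y (s h)) h σ a r = shift (fun h => evx y (s h)) h σ' b r := by
  have key : ∀ τ (m : ℕ), shift (fun h => evx y (s h)) h τ m r =
      evx y (s h) * (univ.val.map (fun i => ((y τ i : ℂˣ) : ℂ) ^ m)).esymm r := by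
    intro τ m
    have h1 := LF_mul_esymm s h τ m r
    rw [LF_mul s hs h _ (fun π => dc_th π τ m _ (MvPolynomial.esymm_isSymmetric _ _ _))] at h1
    have h2 := congrArg (evx y) h1
    rw [map_mul, evx_th, MvPolynomial.aeval_esymm_eq_multiset_esymm] at h2
    rw [h2, shift, shift, map_sum]
  rw [key, key, hy]

end Pool.Agent.N28.BM
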